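import Mathlib
import Pool.Agent.V7H42.EW.Last

set_option autoImplicit false

/-! MP_600e55_nt: isolated subgroups without finiteness. Independent parts (third list). -/

namespace Pool.Agent.V7H42.KR

open Pool.Agent.Y920.EP
open Pool.Agent.V7H42.EW (II)

/-- the maximal ideal lies in `I` (no finiteness) -/
def S_MLE : Prop := ∀ (F : Type) [Field F] (p : ℕ), p.Prime → (p : F) ≠ 0 →
  ∀ (T : Subgroup Fˣ), pwG F p ≤ T → ∀ (O' : ValuationSubring F), (p : F)⁻¹ ∈ O' →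
  ∀ (R : Subring F), (∀ z ∈ R, z ∈ O') → (∀ y : Fˣ, y ∈ T → (y : F) ∈ O' → (y : F) ∈ R) →
  ∀ (J : AddSubgroup F), (∀ z ∈ R, ∀ j ∈ J, z * j ∈ J) →
    (∀ j ∈ J, ∃ t : Fˣ, t ∈ T ∧ (t : F) = 1 + j ∧ (t : F) ∈ O' ∧ (t : F)⁻¹ ∈ O') →
    ∀ u : Fˣ, (u : F) ∈ O' → (u : F)⁻¹ ∉ O' → (u : F) ^ p ∈ J → (u : F) ∈ II T O'

/-- residue characteristic `p` is impossible -/
def S_CHP : Prop := ∀ (F : Type) [Field F] (p : ℕ), p.Prime → (p : F) ≠ 0 →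
  (-1 : Fˣ) ∈ pwG F p → ∀ (H : Subgroup Fˣ), pwG F p ≤ H → ∀ (O : ValuationSubring F),
    (∀ x ∈ H, ∀ y ∈ H, x / y ∉ pwG F p → ∃ z ∈ H, ((z : Fˣ) : F) = (x : F) + y) →
    (∀ h ∈ H, ((h : Fˣ) : F) ∈ O → ((h : Fˣ) : F)⁻¹ ∉ O → ∃ z ∈ pwG F p, ((z : Fˣ) : F) = 1 + h) →
    (∀ c ∈ H, ∀ m : F, ((c : Fˣ) : F) = 1 + m → m ∈ O → (m = 0 ∨ m⁻¹ ∉ O) → c ∈ pwG F p) →
    ∀ r ∈ H, r ∉ pwG F p → r ∈ O.unitGroup → (p : F)⁻¹ ∈ O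

/-- a subfield that contains all `p`-th powers -/
def S_INTF : Prop := ∀ (k : Type) [Field k] (p : ℕ), p.Prime → (p : k) ≠ 0 → Infinite k →
  ∀ L : Subfield k, (∀ x : k, x ^ p ∈ L) → L = ⊤

end Pool.Agent.V7H42.KR
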