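import Mathlib
import Pool.Agent.V7H42.KR.Spec3

set_option autoImplicit false

/-! Isolated subgroups: residue characteristic `p` is impossible. -/

namespace Pool.Agent.V7H42.KR

open Pool.Agent.Y920.EP
open Pool.Agent.V7H42.EW (mem_ug)

section

variable {F : Type} [Field F] {p : ℕ} {O : ValuationSubring F}

/-- `z ^ p = 1 + p u` with a unit `u` -/
lemma pu_eq (hp : p.Prime) (hpn : (p : F)⁻¹ ∉ O) {u z : F} (hu : u ∈ O)
    (hz : z ^ p = 1 + p * u) : ∃ y c : O, IsLocalRing.residue O y = 0 ∧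
      (p : F) * (u - (y : F) * (c : F)) = (y : F) ^ p := by
  have hpm : IsLocalRing.residue O (p : O) = 0 := by
    rw [IsLocalRing.residue_eq_zero_iff, IsLocalRing.mem_maximalIdeal]
    intro h
    apply hpn
    obtain ⟨w, hw⟩ := h.exists_right_inv
    have h1 : (p : F) * (w : F) = 1 := by
      have := congrArg (fun x : O => (x : F)) hw
      push_cast at this
      exact this
    rw [inv_eq_of_mul_eq_one_right h1]
    exact w.2
  have hzO : z ∈ O := by
    rw [← ValuationSubring.valuation_le_one_iff]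
    have h1 : O.valuation (z ^ p) ≤ 1 := by
      rw [ValuationSubring.valuation_le_one_iff, hz]
      exact add_mem (one_mem _) (mul_mem (by exact_mod_cast natCast_mem O p) hu)
    rw [map_pow] at h1
    exact (pow_le_one_iff hp.ne_zero).1 h1
  obtain ⟨c, hc⟩ := exists_add_pow_prime_eq hp (1 : O) (⟨z, hzO⟩ - 1)
  rw [add_sub_cancel, one_pow, mul_one] at hc
  have hz2 : (⟨z, hzO⟩ : O) ^ p = 1 + p * ⟨u, hu⟩ := by
    apply Subtype.ext
    push_cast
    exact hz
  refine ⟨⟨z, hzO⟩ - 1, c, ?_, ?_⟩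
  · have h1 : (IsLocalRing.residue O (⟨z, hzO⟩ - 1)) ^ p = 0 := by
      have h2 := congrArg (IsLocalRing.residue O) hc
      rw [hz2] at h2
      simp only [map_add, map_mul, hpm, zero_mul, add_zero, map_one, map_pow] at h2
      rw [left_eq_add] at h2
      exact h2
    exact pow_eq_zero_iff hp.ne_zero |>.1 h1
  · have h2 := hc
    rw [hz2] at h2
    have h3 := congrArg (fun x : O => (x : F)) h2
    push_cast at h3
    push_cast
    linear_combination h3

/-- quotients of such elements -/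
lemma quot_pow (hp : p.Prime) (hpn : (p : F)⁻¹ ∉ O) (hp0 : (p : F) ≠ 0) {u z u' z' : F}
    (hu : u ∈ O) (hu' : u' ∈ O) (hui : u⁻¹ ∈ O) (hui' : u'⁻¹ ∈ O) (hu0 : u ≠ 0) (hu0' : u' ≠ 0)
    (hz : z ^ p = 1 + p * u) (hz' : z' ^ p = 1 + p * u') :
    ∃ g : O, IsLocalRing.residue O ⟨u', hu'⟩ =
      (IsLocalRing.residue O g) ^ p * IsLocalRing.residue O ⟨u, hu⟩ := by
  obtain ⟨y, c, hy, e⟩ := pu_eq hp hpn hu hz
  obtain ⟨y', c', hy', e'⟩ := pu_eq hp hpn hu' hz'
  have hA : IsLocalRing.residue O (⟨u, hu⟩ - y * c) = IsLocalRing.residue O ⟨u, hu⟩ := by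
    rw [map_sub, map_mul, hy, zero_mul, sub_zero]
  have hA' : IsLocalRing.residue O (⟨u', hu'⟩ - y' * c') = IsLocalRing.residue O ⟨u', hu'⟩ := by
    rw [map_sub, map_mul, hy', zero_mul, sub_zero]
  have hunit : ∀ (x : F) (hx : x ∈ O), x⁻¹ ∈ O → x ≠ 0 → IsUnit (⟨x, hx⟩ : O) := by
    intro x hx hxi hx0
    exact IsUnit.of_mul_eq_one ⟨x⁻¹, hxi⟩ (Subtype.ext (mul_inv_cancel₀ hx0))
  have hU : IsUnit (⟨u, hu⟩ - y * c) := by
    rw [← IsLocalRing.residue_ne_zero_iff_isUnit, hA, IsLocalRing.residue_ne_zero_iff_isUnit]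
    exact hunit _ _ hui hu0
  have hU' : IsUnit (⟨u', hu'⟩ - y' * c') := by
    rw [← IsLocalRing.residue_ne_zero_iff_isUnit, hA', IsLocalRing.residue_ne_zero_iff_isUnit]
    exact hunit _ _ hui' hu0'
  obtain ⟨w, hw⟩ := hU.exists_right_inv
  have hw1 : (u - (y : F) * (c : F)) * (w : F) = 1 := by
    have := congrArg (fun x : O => (x : F)) hw
    push_cast at this
    exact this
  have hy0 : (y : F) ≠ 0 := by
    intro h
    rw [h, zero_pow hp.ne_zero] at e
    rcases mul_eq_zero.1 e with h1 | h1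
    · exact hp0 h1
    · rw [zero_mul, sub_zero] at h1
      exact hu0 h1
  have hg : ((y' : F) / y) ^ p = (u' - (y' : F) * (c' : F)) * (w : F) := by
    rw [div_pow, ← e, ← e']
    have h1 : (u - (y : F) * (c : F)) ≠ 0 := by
      intro h
      rw [h, zero_mul] at hw1
      exact zero_ne_one hw1
    rw [div_eq_iff (mul_ne_zero hp0 h1)]
    linear_combination (-(p : F) * (u' - (y' : F) * (c' : F))) * hw1
  have hgO : (y' : F) / y ∈ O := by
    rw [← ValuationSubring.valuation_le_one_iff]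
    have h1 : O.valuation (((y' : F) / y) ^ p) ≤ 1 := by
      rw [ValuationSubring.valuation_le_one_iff, hg]
      exact mul_mem (sub_mem hu' (mul_mem y'.2 c'.2)) w.2
    rw [map_pow] at h1
    exact (pow_le_one_iff hp.ne_zero).1 h1
  refine ⟨⟨_, hgO⟩, ?_⟩
  have h2 : (⟨_, hgO⟩ : O) ^ p * (⟨u, hu⟩ - y * c) = ⟨u', hu'⟩ - y' * c' := by
    apply Subtype.ext
    push_cast
    rw [hg]
    linear_combination (u' - (y' : F) * (c' : F)) * hw1
  have h3 := congrArg (IsLocalRing.residue O) h2
  rw [map_mul, map_pow, hA, hA'] at h3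
  exact h3.symm

end

theorem t_CHP : S_CHP := by
  intro F _ p hp hp0 hneg H hTH O hfa hff hone r hrH hrT hrO
  classical
  by_contra hpn
  let k := IsLocalRing.ResidueField O
  have hpm : IsLocalRing.residue O (p : O) = 0 := by
    rw [IsLocalRing.residue_eq_zero_iff, IsLocalRing.mem_maximalIdeal]
    intro h
    apply hpn
    obtain ⟨w, hw⟩ := h.exists_right_inv
    have h1 : (p : F) * (w : F) = 1 := by
      have := congrArg (fun x : O => (x : F)) hw
      push_cast at this
      exact this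
    rw [inv_eq_of_mul_eq_one_right h1]
    exact w.2
  have hpk : (p : k) = 0 := by
    rw [← hpm, map_natCast]
  have : CharP k p := by
    have := CharP.exists k
    obtain ⟨q, hq⟩ := this
    have h1 : q ∣ p := (CharP.cast_eq_zero_iff k q p).1 hpk
    rcases (Nat.dvd_prime hp).1 h1 with h2 | h2
    · subst h2
      exact absurd rfl (CharP.char_ne_one k 1)
    · rw [← h2]; exact hq
  have : Fact p.Prime := ⟨hp⟩
  have hru := mem_ug.1 hrO
  -- the residue of a unit of `T`-class
  obtain ⟨ρ, hρ⟩ : ∃ ρ : k, ρ = IsLocalRing.residue O ⟨(r : F), hru.1⟩ := ⟨_, rfl⟩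
  have hρ0 : ρ ≠ 0 := by
    rw [hρ, IsLocalRing.residue_ne_zero_iff_isUnit]
    exact IsUnit.of_mul_eq_one ⟨(r : F)⁻¹, hru.2⟩ (Subtype.ext (mul_inv_cancel₀ r.ne_zero))
  -- elements `≡ 1`
  have hcong : ∀ c : Fˣ, c ∈ H → ∀ hc : (c : F) ∈ O, IsLocalRing.residue O ⟨(c : F), hc⟩ = 1 →
      c ∈ pwG F p := by
    intro c hcH hc h1
    refine hone c hcH ((c : F) - 1) (by ring) (sub_mem hc (one_mem _)) ?_
    by_cases h0 : (c : F) - 1 = 0
    · exact Or.inl h0
    · right
      intro h2
      have h3 : IsLocalRing.residue O ⟨(c : F) - 1, sub_mem hc (one_mem _)⟩ = 0 := by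
        have : (⟨(c : F) - 1, sub_mem hc (one_mem _)⟩ : O) = ⟨(c : F), hc⟩ - 1 := rfl
        rw [this, map_sub, h1, map_one, sub_self]
      rw [IsLocalRing.residue_eq_zero_iff, IsLocalRing.mem_maximalIdeal] at h3
      exact h3 (IsUnit.of_mul_eq_one ⟨_, h2⟩ (Subtype.ext (mul_inv_cancel₀ h0)))
  have hN : ∀ z : k, z ^ p ≠ ρ := by
    intro z hz
    obtain ⟨y, rfl⟩ := IsLocalRing.residue_surjective z
    have hyu : IsUnit y := by
      rw [← IsLocalRing.residue_ne_zero_iff_isUnit]
      intro h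
      rw [h, zero_pow hp.ne_zero] at hz
      exact hρ0 hz.symm
    obtain ⟨w, hw⟩ := hyu.exists_right_inv
    have hw1 : (y : F) * (w : F) = 1 := by
      have := congrArg (fun x : O => (x : F)) hw
      push_cast at this
      exact this
    have hy0 : (y : F) ≠ 0 := by
      intro h
      rw [h, zero_mul] at hw1
      exact zero_ne_one hw1
    have hc : ((r / Units.mk0 (y : F) hy0 ^ p : Fˣ) : F) = (r : F) * (w : F) ^ p := by
      rw [Units.val_div_eq_div_val, Units.val_pow_eq_pow_val, Units.val_mk0, div_eq_iff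
        (pow_ne_zero _ hy0), mul_assoc, ← mul_pow, mul_comm (w : F), hw1, one_pow, mul_one]
    have hcO : ((r / Units.mk0 (y : F) hy0 ^ p : Fˣ) : F) ∈ O := by
      rw [hc]
      exact mul_mem hru.1 (pow_mem w.2 p)
    have hcH : r / Units.mk0 (y : F) hy0 ^ p ∈ H := div_mem hrH (hTH ⟨_, rfl⟩)
    have h1 := hcong _ hcH hcO (by
      have h2 : (⟨_, hcO⟩ : O) = ⟨(r : F), hru.1⟩ * w ^ p := Subtype.ext hc
      rw [h2, map_mul, ← hρ, ← hz, ← map_pow, ← map_mul, ← mul_pow, hw, one_pow, map_one])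
    apply hrT
    have h3 := mul_mem h1 (show Units.mk0 (y : F) hy0 ^ p ∈ pwG F p from ⟨_, rfl⟩)
    rwa [div_mul_cancel] at h3
  have hfrob : ∀ x y : k, (x + y) ^ p = x ^ p + y ^ p := fun x y => add_pow_char x y p
  have hfrobs : ∀ x y : k, (x - y) ^ p = x ^ p - y ^ p := fun x y => sub_pow_char x y
  have hnat : ∀ n : ℕ, ((n : k)) ^ p = n := fun n => by
    have := map_natCast (frobenius k p) n
    rwa [frobenius_def] at this
  -- no relation `a ^ p = ρ b ^ p`
  have hN2 : ∀ a b : k, a ^ p = ρ * b ^ p → a = 0 ∧ b = 0 := by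
    intro a b h
    by_cases hb : b = 0
    · rw [hb, zero_pow hp.ne_zero, mul_zero] at h
      exact ⟨pow_eq_zero_iff hp.ne_zero |>.1 h, hb⟩
    · exfalso
      refine hN (a / b) ?_
      rw [div_pow, h, mul_div_cancel_right₀ _ (pow_ne_zero _ hb)]
  -- sums `1 + r e ^ p`
  have hsum : ∀ e : Fˣ, ∃ y ∈ H, ((y : Fˣ) : F) = 1 + (r : F) * (e : F) ^ p := by
    intro e
    obtain ⟨z, hz, hz'⟩ := hfa 1 (one_mem _) (r * e ^ p)
      (mul_mem hrH (hTH ⟨e, rfl⟩)) (by
        intro h
        apply hrT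
        have h1 := inv_mem h
        rw [inv_div, div_one] at h1
        have h2 := mul_mem h1 (inv_mem (show e ^ p ∈ pwG F p from ⟨_, rfl⟩))
        rwa [mul_inv_cancel_right] at h2)
    exact ⟨z, hz, by rw [hz']; push_cast; rfl⟩
  have hdiff : ∀ (x : Fˣ), x ∈ pwG F p → ∀ e : Fˣ, ∃ y ∈ H,
      ((y : Fˣ) : F) = (x : F) - (r : F) * (e : F) ^ p := by
    intro x hx e
    obtain ⟨z, hz, hz'⟩ := hfa x (hTH hx) (-1 * (r * e ^ p))
      (mul_mem (hTH hneg) (mul_mem hrH (hTH ⟨e, rfl⟩))) (by
        intro h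
        apply hrT
        have h1 := mul_mem (inv_mem h) hx
        rw [inv_div, div_mul_cancel] at h1
        have h2 := mul_mem (mul_mem hneg h1) (inv_mem (show e ^ p ∈ pwG F p from ⟨_, rfl⟩))
        rwa [← mul_assoc, ← mul_assoc, neg_mul_neg, one_mul, one_mul, mul_inv_cancel_right] at h2)
    exact ⟨z, hz, by rw [hz']; push_cast; ring⟩
  -- the numbers below `p`
  have hnum : ∀ n : ℕ, 1 ≤ n → n < p → ∃ u : Fˣ, (u : F) = n ∧ u ∈ pwG F p := by
    intro n hn
    induction n, hn using Nat.le_induction with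
    | base =>
      intro _
      exact ⟨1, by simp, one_mem _⟩
    | succ n hn ih =>
      intro hnp
      obtain ⟨u, hu, huT⟩ := ih (by omega)
      -- the unit `n + 1`
      have hk1 : ((n + 1 : ℕ) : k) ≠ 0 := by
        intro h
        have h1 := (CharP.cast_eq_zero_iff k p (n + 1)).1 h
        exact absurd (Nat.le_of_dvd (by omega) h1) (by omega)
      have hO1 : IsUnit ((n + 1 : ℕ) : O) := by
        rw [← IsLocalRing.residue_ne_zero_iff_isUnit, map_natCast]
        exact hk1
      obtain ⟨w, hw⟩ := hO1.exists_right_inv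
      have hw1 : ((n + 1 : ℕ) : F) * (w : F) = 1 := by
        have := congrArg (fun x : O => (x : F)) hw
        push_cast at this ⊢
        exact this
      have hn0 : ((n + 1 : ℕ) : F) ≠ 0 := by
        intro h
        rw [h, zero_mul] at hw1
        exact zero_ne_one hw1
      obtain ⟨x, hx⟩ : ∃ x : Fˣ, (x : F) = ((n + 1 : ℕ) : F) := ⟨Units.mk0 _ hn0, rfl⟩
      refine ⟨x, hx, ?_⟩
      have hxH : x ∈ H := by
        obtain ⟨a, ha, ha'⟩ := hsum 1
        obtain ⟨b, hb, hb'⟩ := hdiff u huT 1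
        rw [Units.val_one, one_pow, mul_one] at ha' hb'
        by_cases hab : a / b ∈ pwG F p
        · exfalso
          obtain ⟨z, hz⟩ := hab
          have hz' : z ^ p = a / b := hz
          -- `a = z ^ p b`
          have e1 : (1 : F) + r = (z : F) ^ p * ((n : F) - r) := by
            rw [← ha', ← hu, ← hb', ← Units.val_pow_eq_pow_val, hz', ← Units.val_mul,
              div_mul_cancel]
          have hzO : (z : F) ∈ O := by
            rw [← ValuationSubring.valuation_le_one_iff]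
            have hbu : IsUnit ((n : O) - ⟨(r : F), hru.1⟩) := by
              rw [← IsLocalRing.residue_ne_zero_iff_isUnit, map_sub, map_natCast, ← hρ]
              intro h
              refine hN (n : k) ?_
              rw [hnat]
              exact sub_eq_zero.1 h
            obtain ⟨v, hv⟩ := hbu.exists_right_inv
            have hv1 : ((n : F) - r) * (v : F) = 1 := by
              have := congrArg (fun x : O => (x : F)) hv
              push_cast at this
              exact this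
            have e2 : (z : F) ^ p = (1 + r) * (v : F) := by
              rw [e1, mul_assoc, hv1, mul_one]
            have h1 : O.valuation ((z : F) ^ p) ≤ 1 := by
              rw [ValuationSubring.valuation_le_one_iff, e2]
              exact mul_mem (add_mem (one_mem _) hru.1) v.2
            rw [map_pow] at h1
            exact (pow_le_one_iff hp.ne_zero).1 h1
          have e3 : (1 : O) + ⟨(r : F), hru.1⟩ = (⟨(z : F), hzO⟩ : O) ^ p *
              ((n : O) - ⟨(r : F), hru.1⟩) := by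
            apply Subtype.ext
            push_cast
            exact e1
          have e4 := congrArg (IsLocalRing.residue O) e3
          rw [map_add, map_one, map_mul, map_pow, map_sub, map_natCast, ← hρ] at e4
          obtain ⟨ζ, hζ⟩ : ∃ ζ : k, ζ = IsLocalRing.residue O ⟨(z : F), hzO⟩ := ⟨_, rfl⟩
          rw [← hζ] at e4
          -- `(ζ n - 1) ^ p = ρ (1 + ζ) ^ p`
          obtain ⟨h5, h6⟩ := hN2 (ζ * n - 1) (1 + ζ) (by
            rw [hfrobs, hfrob, mul_pow, hnat, one_pow]
            linear_combination -e4)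
          apply hk1
          push_cast
          have h7 : ζ = -1 := by linear_combination h6
          rw [h7] at h5
          linear_combination -h5
        · obtain ⟨c, hc, hc'⟩ := hfa a ha b hb hab
          have : x = c := Units.ext (by
            rw [hx, hc', ha', hb', hu]
            push_cast
            ring)
          rw [this]
          exact hc
      -- `x / x ^ p` is `1` modulo `m`
      have hxO : ((x / x ^ p : Fˣ) : F) = ((n + 1 : ℕ) : F) * (w : F) ^ p := by
        rw [Units.val_div_eq_div_val, Units.val_pow_eq_pow_val, hx, div_eq_iff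
          (pow_ne_zero _ hn0), mul_assoc, ← mul_pow, mul_comm (w : F), hw1, one_pow, mul_one]
      have hxO' : ((x / x ^ p : Fˣ) : F) ∈ O := by
        rw [hxO]
        exact mul_mem (by exact_mod_cast natCast_mem O (n + 1)) (pow_mem w.2 p)
      have h1 := hcong (x / x ^ p) (div_mem hxH (hTH ⟨x, rfl⟩)) hxO' (by
        have e5 : (((n + 1 : ℕ) : O) : F) = ((n + 1 : ℕ) : F) := by push_cast; rfl
        have h2 : (⟨_, hxO'⟩ : O) = ((n + 1 : ℕ) : O) * w ^ p := Subtype.ext (by
          change ((x / x ^ p : Fˣ) : F) = (((n + 1 : ℕ) : O) : F) * (w : F) ^ p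
          rw [hxO, e5])
        rw [h2, map_mul, map_natCast, ← hnat, ← map_natCast (IsLocalRing.residue O), ← map_pow,
          ← map_mul, ← mul_pow, hw, one_pow, map_one])
      have h3 := mul_mem h1 (show x ^ p ∈ pwG F p from ⟨_, rfl⟩)
      rwa [div_mul_cancel] at h3
  -- `p` is in `H`
  obtain ⟨P, hP⟩ : ∃ P : Fˣ, (P : F) = p := ⟨Units.mk0 _ hp0, rfl⟩
  have hmk : ∀ (x : F), x ≠ 0 → ∀ hx : x ∈ O, IsLocalRing.residue O ⟨x, hx⟩ ≠ 0 → x⁻¹ ∈ O := by
    intro x hx0 hx h
    rw [IsLocalRing.residue_ne_zero_iff_isUnit] at h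
    obtain ⟨w, hw⟩ := h.exists_right_inv
    have h1 : x * (w : F) = 1 := congrArg (fun x : O => (x : F)) hw
    rw [inv_eq_of_mul_eq_one_right h1]
    exact w.2
  have hPH : P ∈ H := by
    by_contra hPH
    have hkey : ∀ e : Fˣ, ∃ z : F, ∃ y : Fˣ, ((y : Fˣ) : F) = 1 + (r : F) * (e : F) ^ p ∧
        z ^ p = 1 + p * (-(y : F)⁻¹) := by
      intro e
      obtain ⟨a, ha, ha'⟩ := hsum e
      have hx : ∃ x : Fˣ, x ∈ pwG F p ∧ (x : F) = (p : F) - 1 := by
        obtain ⟨u, hu, huT⟩ := hnum (p - 1) (by have := hp.two_le; omega) (by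
          have := hp.two_le; omega)
        refine ⟨u, huT, ?_⟩
        rw [hu, Nat.cast_sub hp.one_le, Nat.cast_one]
      obtain ⟨x, hx, hx'⟩ := hx
      obtain ⟨b, hb, hb'⟩ := hdiff x hx e
      by_cases hab : b / a ∈ pwG F p
      · obtain ⟨z, hz⟩ := mul_mem hneg hab
        have hz' : z ^ p = -1 * (b / a) := hz
        refine ⟨z, a, ha', ?_⟩
        rw [← Units.val_pow_eq_pow_val, hz', Units.val_mul, Units.val_neg, Units.val_one,
          Units.val_div_eq_div_val, hb', hx']
        have h1 : ((a : Fˣ) : F) ≠ 0 := a.ne_zero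
        field_simp
        rw [ha']
        ring
      · exfalso
        obtain ⟨c, hc, hc'⟩ := hfa b hb a ha hab
        apply hPH
        have : P = c := Units.ext (by
          rw [hP, hc', ha', hb', hx']
          ring)
        rw [this]
        exact hc
    obtain ⟨z1, y1, hy1, hz1⟩ := hkey 1
    obtain ⟨z2, y2, hy2, hz2⟩ := hkey r
    have hy1O : ((y1 : Fˣ) : F) ∈ O := by
      rw [hy1]
      exact add_mem (one_mem _) (mul_mem hru.1 (pow_mem (by rw [Units.val_one]; exact one_mem _) p))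
    have hy2O : ((y2 : Fˣ) : F) ∈ O := by
      rw [hy2]
      exact add_mem (one_mem _) (mul_mem hru.1 (pow_mem hru.1 p))
    have hr1 : IsLocalRing.residue O ⟨_, hy1O⟩ = 1 + ρ := by
      have : (⟨_, hy1O⟩ : O) = 1 + ⟨(r : F), hru.1⟩ := Subtype.ext (by
        push_cast
        rw [hy1, Units.val_one, one_pow, mul_one])
      rw [this, map_add, map_one, ← hρ]
    have hr2 : IsLocalRing.residue O ⟨_, hy2O⟩ = 1 + ρ * ρ ^ p := by
      have : (⟨_, hy2O⟩ : O) = 1 + ⟨(r : F), hru.1⟩ * ⟨(r : F), hru.1⟩ ^ p := Subtype.ext (by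
        push_cast
        rw [hy2])
      rw [this, map_add, map_one, map_mul, map_pow, ← hρ]
    have hm1 : ((-1 : k)) ^ p = -1 := by
      have h1 := hfrobs 0 1
      rwa [zero_sub, zero_pow hp.ne_zero, one_pow, zero_sub] at h1
    have hr1' : (1 : k) + ρ ≠ 0 := by
      intro h
      refine hN (-1) ?_
      rw [hm1]
      linear_combination -h
    have hr2' : (1 : k) + ρ * ρ ^ p ≠ 0 := by
      intro h
      obtain ⟨h1, -⟩ := hN2 (-1) ρ (by rw [hm1]; linear_combination -h)
      exact one_ne_zero (neg_eq_zero.1 h1)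
    have hy1i := hmk _ y1.ne_zero hy1O (by rw [hr1]; exact hr1')
    have hy2i := hmk _ y2.ne_zero hy2O (by rw [hr2]; exact hr2')
    obtain ⟨g, hg⟩ := quot_pow (O := O) hp hpn hp0 (u := -(y1 : F)⁻¹) (u' := -(y2 : F)⁻¹)
      (z := z1) (z' := z2) (neg_mem hy1i) (neg_mem hy2i)
      (by rw [inv_neg, inv_inv]; exact neg_mem hy1O) (by rw [inv_neg, inv_inv]; exact neg_mem hy2O)
      (neg_ne_zero.2 (inv_ne_zero y1.ne_zero)) (neg_ne_zero.2 (inv_ne_zero y2.ne_zero)) hz1 hz2
    -- residues of the inverses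
    have hi1 : IsLocalRing.residue O ⟨-(y1 : F)⁻¹, neg_mem hy1i⟩ * (1 + ρ) = -1 := by
      rw [← hr1, ← map_mul, ← map_one (IsLocalRing.residue O), ← map_neg]
      congr 1
      apply Subtype.ext
      push_cast
      have h1 : ((y1 : Fˣ) : F) ≠ 0 := y1.ne_zero
      field_simp
    have hi2 : IsLocalRing.residue O ⟨-(y2 : F)⁻¹, neg_mem hy2i⟩ * (1 + ρ * ρ ^ p) = -1 := by
      rw [← hr2, ← map_mul, ← map_one (IsLocalRing.residue O), ← map_neg]
      congr 1
      apply Subtype.ext
      push_cast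
      have h1 : ((y2 : Fˣ) : F) ≠ 0 := y2.ne_zero
      field_simp
    obtain ⟨γ, hγ⟩ : ∃ γ : k, γ = IsLocalRing.residue O g := ⟨_, rfl⟩
    rw [← hγ] at hg
    -- `1 + ρ = γ ^ p (1 + ρ ^ (p+1))`
    have h1 : (1 + ρ) = γ ^ p * (1 + ρ * ρ ^ p) := by
      rw [hg] at hi2
      have h2 : (γ ^ p * (1 + ρ * ρ ^ p) - (1 + ρ)) *
          IsLocalRing.residue O ⟨-(y1 : F)⁻¹, neg_mem hy1i⟩ = 0 := by
        linear_combination hi2 - hi1
      rcases mul_eq_zero.1 h2 with h3 | h3
      · linear_combination -h3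
      · rw [h3, zero_mul] at hi1
        exact absurd hi1.symm (neg_ne_zero.2 one_ne_zero)
    -- `(1 - γ) ^ p = ρ (γ ρ - 1) ^ p`
    obtain ⟨h3, h4⟩ := hN2 (1 - γ) (γ * ρ - 1) (by
      rw [hfrobs, hfrobs, mul_pow, one_pow]
      linear_combination h1)
    have h5 : γ = 1 := by linear_combination -h3
    rw [h5] at h4
    refine hN 1 ?_
    rw [one_pow]
    linear_combination -h4
  -- the contradiction
  have hPO : (P : F) ∈ O := by rw [hP]; exact_mod_cast natCast_mem O p
  obtain ⟨a, ⟨z, hz⟩, ha⟩ := hff P hPH hPO (by rw [hP]; exact hpn)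
  have hz' : z ^ p = a := hz
  obtain ⟨b, ⟨z2, hz2⟩, hb⟩ := hff (P * r) (mul_mem hPH hrH) (by
    rw [Units.val_mul]; exact mul_mem hPO hru.1) (by
    intro h
    apply hpn
    have h1 := mul_mem h hru.1
    rw [Units.val_mul, hP, mul_inv, inv_mul_cancel_right₀ r.ne_zero] at h1
    exact h1)
  have hz2' : z2 ^ p = b := hz2
  obtain ⟨g, hg⟩ := quot_pow (O := O) hp hpn hp0 (u := 1) (u' := (r : F)) (z := z) (z' := z2)
    (one_mem _) hru.1 (by rw [inv_one]; exact one_mem _) hru.2 one_ne_zero r.ne_zero (by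
      rw [← Units.val_pow_eq_pow_val, hz', ha, hP, mul_one]) (by
      rw [← Units.val_pow_eq_pow_val, hz2', hb, Units.val_mul, hP])
  refine hN (IsLocalRing.residue O g) ?_
  rw [hρ, hg]
  have h1 : (⟨(1 : F), one_mem _⟩ : O) = 1 := rfl
  rw [h1, map_one, mul_one]

end Pool.Agent.V7H42.KR
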