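import Mathlib
import Pool.Agent.Y920.EP.Stm

set_option autoImplicit false

/-! MP_600e55_nt: one norm group of order `p`. Independent parts. -/

namespace Pool.Agent.V7H42.KR

open Pool.Agent.Y920.EP

/-- the one-units of `O` lie in `T` -/
def One {F : Type} [Field F] (T : Subgroup Fˣ) (O : ValuationSubring F) : Prop :=
  ∀ y : F, y ∈ O → y⁻¹ ∉ O → ∃ t ∈ T, ((t : Fˣ) : F) = 1 + y

/-- every class contains a unit `w` with `1 + w ∈ T` (infinite residue field) -/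
def S_RAM : Prop := ∀ (F : Type) [Field F] (T : Subgroup Fˣ) [Finite (Fˣ ⧸ T)]
  (O : ValuationSubring F), One T O → (∀ c : Fˣ ⧸ T, ∃ u ∈ O.unitGroup, ((u : Fˣ) : Fˣ ⧸ T) = c) →
    Infinite (IsLocalRing.ResidueField O) → ∀ b : Fˣ ⧸ T, ∃ w ∈ O.unitGroup,
      ((w : Fˣ) : Fˣ ⧸ T) = b ∧ ∃ t ∈ T, ((t : Fˣ) : F) = 1 + w

/-- finite residue field: cyclic -/
def S_CYC : Prop := ∀ (F : Type) [Field F] (T : Subgroup Fˣ) (O : ValuationSubring F), One T O →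
  (∀ c : Fˣ ⧸ T, ∃ u ∈ O.unitGroup, ((u : Fˣ) : Fˣ ⧸ T) = c) →
    Finite (IsLocalRing.ResidueField O) → ∃ g : Fˣ ⧸ T, ∀ c : Fˣ ⧸ T, ∃ k : ℕ, c = g ^ k

/-- residue characteristic `p` and finitely many classes of `p`-th powers: the residue field is
perfect -/
def S_PERF : Prop := ∀ (F : Type) [Field F] (p : ℕ), p.Prime → ∀ (O : ValuationSubring F),
  Finite (Fˣ ⧸ pwG F p) → (p : F)⁻¹ ∉ O → ∀ r ∈ O.unitGroup, ∃ z ∈ O.unitGroup, ∃ m : F,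
    ((r : Fˣ) : F) = ((z : Fˣ) : F) ^ p * (1 + m) ∧ m ∈ O ∧ (m = 0 ∨ m⁻¹ ∉ O)

end Pool.Agent.V7H42.KR
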