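import Mathlib
import Pool.Agent.V7H42.EW.Rig
import Pool.Agent.V7H42.KR.Spec

set_option autoImplicit false

/-! One norm group of order `p`: the linear order. -/

namespace Pool.Agent.V7H42.KR

open Pool.Agent.Y920.EP

section

variable {F : Type} [Field F] {A : Type} [CommGroup A] {φ : Fˣ →* A}

/-- a system of norm groups and an element `a` (generating `H`) all of whose nontrivial powers have
norm groups in `H` -/
structure Kr (φ : Fˣ →* A) (Nn : A → Subgroup A) (H : Subgroup A) : Prop where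
  neg : φ (-1) = 1
  symm : ∀ a b : A, b ∈ Nn a → a ∈ Nn b
  sum : ∀ u v : Fˣ, (v : F) = 1 + u → φ v ∈ Nn (φ u)
  le : ∀ h ∈ H, h ≠ 1 → Nn h ≤ H

/-- `I_x ⊆ I_y` -/
def Li (φ : Fˣ →* A) (H : Subgroup A) (x y : Fˣ) : Prop :=
  ∀ w : Fˣ, φ w ∉ H → Ml φ w x → Ml φ w y

variable {Nn : A → Subgroup A} {H : Subgroup A}

lemma li_refl (x : Fˣ) : Li φ H x x := fun _ _ h => h

lemma li_trans {x y z : Fˣ} (h1 : Li φ H x y) (h2 : Li φ H y z) : Li φ H x z :=
  fun w hw h => h2 w hw (h1 w hw h)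

lemma li_mul {c x y : Fˣ} (hc : φ c ∈ H) (h : Li φ H x y) : Li φ H (c * x) (c * y) := by
  intro w hw h1
  have e : c * (c⁻¹ * w) = w := mul_inv_cancel_left c w
  rw [← e, ml_mul] at h1
  rw [← e, ml_mul]
  refine h _ ?_ h1
  rw [map_mul, map_inv]
  exact fun h2 => hw ((H.mul_mem_cancel_left (inv_mem hc)).1 h2)

lemma li_mul' {c x y : Fˣ} (hc : φ c ∈ H) (h : Li φ H x y) : Li φ H (x * c) (y * c) := by
  rw [mul_comm x, mul_comm y]
  exact li_mul hc h

variable (hK : Kr φ Nn H)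

include hK

lemma phi_neg' (x : Fˣ) : φ (-x) = φ x := phi_neg hK.neg x

/-- sums of elements of different classes of `H` -/
lemma fa {x y : Fˣ} (hx : φ x ∈ H) (hy : φ y ∈ H) (hxy : φ x ≠ φ y) :
    ∃ z : Fˣ, (z : F) = x + y ∧ φ z ∈ H := by
  have h0 : (x : F) + y ≠ 0 := by
    intro h
    apply hxy
    have : x = -y := Units.ext (by rw [Units.val_neg]; linear_combination h)
    rw [this, phi_neg' hK]
  refine ⟨Units.mk0 _ h0, rfl, ?_⟩
  have h1 : φ (y / x) ∈ H := by rw [map_div]; exact div_mem hy hx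
  have h2 : φ (y / x) ≠ 1 := by
    rw [map_div]
    exact fun h => hxy (div_eq_one.1 h).symm
  have h3 := hK.le _ h1 h2 (hK.sum (y / x) (Units.mk0 _ h0 / x) (by
    rw [Units.val_div_eq_div_val, Units.val_div_eq_div_val, Units.val_mk0]
    field_simp))
  rw [map_div] at h3
  have h4 := mul_mem h3 hx
  rwa [div_mul_cancel] at h4

/-- an element outside `H` -/
lemma fb {w : Fˣ} (hw : φ w ∉ H) : ∃ v : Fˣ, (v : F) = 1 + w ∧ (φ v = 1 ∨ φ v ∉ H) := by
  have h0 : (1 : F) + w ≠ 0 := by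
    intro h
    apply hw
    have : w = -1 := Units.ext (by rw [Units.val_neg, Units.val_one]; linear_combination h)
    rw [this, hK.neg]
    exact one_mem H
  refine ⟨Units.mk0 _ h0, rfl, ?_⟩
  by_contra hc
  push Not at hc
  exact hw (hK.le _ hc.2 hc.1 (hK.symm _ _ (hK.sum w (Units.mk0 _ h0) rfl)))

lemma fc {x y z : Fˣ} (hx : φ x ∈ H) (hy : φ y ∈ H) (hxy : φ x ≠ φ y) (hz : (z : F) = x + y) :
    φ z ∈ H ∧ Li φ H x z ∧ Li φ H y z := by
  have key : ∀ x y : Fˣ, φ x ∈ H → φ y ∈ H → φ x ≠ φ y → (z : F) = x + y →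
      φ z ∈ H ∧ Li φ H x z := by
    intro x y hx hy hxy hz
    obtain ⟨z', hz', h1⟩ := fa hK hx hy hxy
    have hzz : z = z' := Units.ext (hz.trans hz'.symm)
    rw [← hzz] at h1
    refine ⟨h1, ?_⟩
    rintro w hw ⟨x', hx', e⟩
    obtain ⟨v, hv, hv'⟩ := fa hK (x := x') (y := y) (by rw [e]; exact hx) hy (by rw [e]; exact hxy)
    refine ⟨v, by rw [hv, hx', hz]; ring, ?_⟩
    have hwz : φ (w / z) ∉ H := by
      rw [map_div]
      intro h
      apply hw
      have h2 := mul_mem h h1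
      rwa [div_mul_cancel] at h2
    obtain ⟨c, hc, h3⟩ := fb hK hwz
    have e1 : c = v / z := by
      apply Units.ext
      have hz0 : (z : F) ≠ 0 := z.ne_zero
      rw [hc, Units.val_div_eq_div_val, Units.val_div_eq_div_val, hv, hx']
      field_simp
      rw [hz]
      ring
    rw [e1, map_div] at h3
    rcases h3 with h3 | h3
    · exact div_eq_one.1 h3
    · exact absurd (div_mem hv' h1) h3
  refine ⟨(key x y hx hy hxy hz).1, (key x y hx hy hxy hz).2,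
    (key y x hy hx (Ne.symm hxy) (by rw [hz, add_comm])).2⟩

/-- nonrigid elements in `H` -/
lemma fd {r s : Fˣ} (hr : φ r ∈ H) (hs : φ s ∈ H) (hrs : (r : F) + s = 1) (hr1 : φ r ≠ 1)
    (hs1 : φ s ≠ 1) (hrs' : φ s ≠ φ r) :
    (Li φ H r 1 ∧ Li φ H 1 r) ∧ (Li φ H s 1 ∧ Li φ H 1 s) ∧ Li φ H (-1) 1 := by
  have h1 : φ 1 ∈ H := by rw [map_one]; exact one_mem H
  obtain ⟨-, h2, h3⟩ := fc hK hr hs (Ne.symm hrs') (z := 1) (by rw [hrs, Units.val_one])
  obtain ⟨-, h4, h5⟩ := fc hK (x := 1) (y := -s) (z := r) h1 (by rw [phi_neg' hK]; exact hs) (by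
    rw [map_one, phi_neg' hK]; exact Ne.symm hs1) (by
    rw [Units.val_one, Units.val_neg]; linear_combination hrs)
  obtain ⟨-, h6, h7⟩ := fc hK (x := 1) (y := -r) (z := s) h1 (by rw [phi_neg' hK]; exact hr) (by
    rw [map_one, phi_neg' hK]; exact Ne.symm hr1) (by
    rw [Units.val_one, Units.val_neg]; linear_combination hrs)
  refine ⟨⟨h2, h4⟩, ⟨h3, h6⟩, ?_⟩
  -- `-s ≤ 1`, so `s ≤ -1`, so `1 ≤ -1`
  have h8 := li_mul (c := -1) (by rw [hK.neg]; exact one_mem H) (li_trans h5 h2)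
  rw [neg_mul_neg, one_mul, mul_one] at h8
  have h9 := li_mul (c := -1) (by rw [hK.neg]; exact one_mem H) (li_trans h6 h8)
  rwa [neg_mul_neg, one_mul, mul_one] at h9

variable (r s : Fˣ) (hr : φ r ∈ H) (hs : φ s ∈ H) (hrs : (r : F) + s = 1) (hr1 : φ r ≠ 1)
    (hs1 : φ s ≠ 1) (hrs' : φ s ≠ φ r)

include r s hr hs hrs hr1 hs1 hrs'

lemma li_neg {x y : Fˣ} : Li φ H x y ↔ Li φ H (-x) (-y) := by
  have hn : φ (-1) ∈ H := by rw [hK.neg]; exact one_mem H
  constructor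
  · intro h
    have := li_mul hn h
    rwa [neg_one_mul, neg_one_mul] at this
  · intro h
    have := li_mul hn h
    rwa [neg_mul_neg, neg_mul_neg, one_mul, one_mul] at this

lemma li_neg1 : Li φ H (-1) 1 ∧ Li φ H 1 (-1) := by
  have h := (fd hK hr hs hrs hr1 hs1 hrs').2.2
  refine ⟨h, ?_⟩
  have := (li_neg hK r s hr hs hrs hr1 hs1 hrs').1 h
  rwa [neg_neg] at this

/-- linear order -/
lemma li_tot {h : Fˣ} (hh : φ h ∈ H) : Li φ H h 1 ∨ Li φ H 1 h := by
  obtain ⟨⟨a1, a2⟩, ⟨a3, a4⟩, -⟩ := fd hK hr hs hrs hr1 hs1 hrs'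
  obtain ⟨n1, n2⟩ := li_neg1 hK r s hr hs hrs hr1 hs1 hrs'
  have h1 : φ 1 ∈ H := by rw [map_one]; exact one_mem H
  have key : ∀ h : Fˣ, φ h ∈ H → φ h ≠ 1 → Li φ H h 1 ∨ Li φ H 1 h := by
    intro h hh hh1
    obtain ⟨z, hz, hzH⟩ := fa hK h1 hh (by rw [map_one]; exact Ne.symm hh1)
    obtain ⟨-, b1, b2⟩ := fc hK h1 hh (by rw [map_one]; exact Ne.symm hh1) hz
    rw [Units.val_one] at hz
    by_cases hz1 : φ z = 1
    · left
      obtain ⟨-, b3, -⟩ := fc hK (x := z) (y := -h) (z := 1) hzH (by rw [phi_neg' hK]; exact hh) (by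
        rw [hz1, phi_neg' hK]; exact Ne.symm hh1) (by
        rw [Units.val_neg, hz, Units.val_one]; ring)
      exact li_trans b2 b3
    · right
      obtain ⟨-, b3, -⟩ := fc hK (x := z) (y := -1) (z := h) hzH (by
        rw [phi_neg' hK]; exact h1) (by
        rw [phi_neg' hK, map_one]; exact hz1) (by
        rw [Units.val_neg, hz, Units.val_one]; ring)
      exact li_trans b1 b3
  by_cases hh1 : φ h = 1
  · have c1 := li_mul hh a1
    have c2 := li_mul hh a2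
    rw [mul_one] at c1 c2
    have hhr : φ (h * r) ∈ H := by rw [map_mul]; exact mul_mem hh hr
    rcases key (h * r) hhr (by rw [map_mul, hh1, one_mul]; exact hr1) with h2 | h2
    · exact Or.inl (li_trans c2 h2)
    · exact Or.inr (li_trans h2 c1)
  · exact key h hh hh1

/-- small elements of `H` -/
def Sh (φ : Fˣ →* A) (H : Subgroup A) (h : Fˣ) : Prop :=
  φ h ∈ H ∧ ¬ Li φ H 1 h

omit hK r s hr hs hrs hr1 hs1 hrs' in
lemma sh_mul {c h : Fˣ} (hc : φ c ∈ H) (hc1 : Li φ H c 1) (hh : Sh φ H h) : Sh φ H (c * h) := by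
  refine ⟨by rw [map_mul]; exact mul_mem hc hh.1, fun h1 => hh.2 ?_⟩
  have h2 := li_mul (c := c⁻¹) (by rw [map_inv]; exact inv_mem hc) (li_trans hc1 h1)
  rwa [inv_mul_cancel, inv_mul_cancel_left] at h2

lemma ff1 {h : Fˣ} (hh : Sh φ H h) (hh1 : φ h ≠ 1) :
    ∃ z : Fˣ, (z : F) = 1 + h ∧ φ z = 1 ∧ Li φ H z 1 ∧ Li φ H 1 z := by
  have h1 : φ 1 ∈ H := by rw [map_one]; exact one_mem H
  obtain ⟨z, hz, hzH⟩ := fa hK h1 hh.1 (by rw [map_one]; exact Ne.symm hh1)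
  obtain ⟨-, b1, b2⟩ := fc hK h1 hh.1 (by rw [map_one]; exact Ne.symm hh1) hz
  rw [Units.val_one] at hz
  by_cases hz1 : φ z = 1
  · obtain ⟨-, b3, -⟩ := fc hK (x := z) (y := -h) (z := 1) hzH (by
      rw [phi_neg' hK]; exact hh.1) (by
      rw [hz1, phi_neg' hK]; exact Ne.symm hh1) (by
      rw [Units.val_neg, hz, Units.val_one]; ring)
    exact ⟨z, hz, hz1, b3, b1⟩
  · exfalso
    obtain ⟨-, b3, -⟩ := fc hK (x := z) (y := -1) (z := h) hzH (by
      rw [phi_neg' hK]; exact h1) (by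
      rw [phi_neg' hK, map_one]; exact hz1) (by
      rw [Units.val_neg, hz, Units.val_one]; ring)
    exact hh.2 (li_trans b1 b3)

/-- one-units -/
lemma ff {h : Fˣ} (hh : Sh φ H h) :
    ∃ z : Fˣ, (z : F) = 1 + h ∧ φ z = 1 ∧ Li φ H z 1 ∧ Li φ H 1 z := by
  by_cases hh1 : φ h = 1
  · obtain ⟨⟨a1, a2⟩, ⟨a3, a4⟩, -⟩ := fd hK hr hs hrs hr1 hs1 hrs'
    have hrh : Sh φ H (r * h) := sh_mul hr a1 hh
    obtain ⟨t1, ht1, e1, c1, c2⟩ := ff1 hK r s hr hs hrs hr1 hs1 hrs' hrh (by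
      rw [map_mul, hh1, mul_one]; exact hr1)
    have ht1H : φ t1⁻¹ ∈ H := by rw [map_inv, e1, inv_one]; exact one_mem H
    have hst : φ (t1⁻¹ * s) ∈ H := by rw [map_mul]; exact mul_mem ht1H hs
    have hst1 : Li φ H (t1⁻¹ * s) 1 := by
      have h2 := li_mul ht1H c2
      rw [inv_mul_cancel, mul_one] at h2
      have h3 := li_mul ht1H a3
      rw [mul_one] at h3
      exact li_trans h3 h2
    have hsh : Sh φ H (t1⁻¹ * s * h) := sh_mul hst hst1 hh
    obtain ⟨t2, ht2, e2, c3, c4⟩ := ff1 hK r s hr hs hrs hr1 hs1 hrs' hsh (by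
      rw [map_mul, map_mul, map_inv, e1, hh1, inv_one, one_mul, mul_one]; exact hs1)
    refine ⟨t1 * t2, ?_, by rw [map_mul, e1, e2, one_mul], ?_, ?_⟩
    · have h0 : (t1 : F) ≠ 0 := t1.ne_zero
      rw [Units.val_mul, ht2, Units.val_mul, Units.val_mul, Units.val_inv_eq_inv_val, mul_add,
        mul_one, mul_assoc, mul_inv_cancel_left₀ h0, ht1, Units.val_mul]
      linear_combination (h : F) * hrs
    · have h2 := li_mul (c := t1) (by rw [e1]; exact one_mem H) c3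
      rw [mul_one] at h2
      exact li_trans h2 c1
    · have h2 := li_mul (c := t1) (by rw [e1]; exact one_mem H) c4
      rw [mul_one] at h2
      exact li_trans c2 h2
  · exact ff1 hK r s hr hs hrs hr1 hs1 hrs' hh hh1

end

end Pool.Agent.V7H42.KR
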