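import Mathlib
import Pool.Agent.V7H42.KR.Ord

set_option autoImplicit false

/-! One norm group of order `p`: the valuation ring. -/

namespace Pool.Agent.V7H42.KR

open Pool.Agent.Y920.EP

/-- an integral element whose inverse is in the ring -/
lemma int_inv {F : Type} [Field F] {R : Subring F} {h : Fˣ} (h6 : ((h⁻¹ : Fˣ) : F) ∈ R)
    (h1 : IsIntegral R (h : F)) : (h : F) ∈ R := by
  have hinj : Function.Injective (algebraMap R (integralClosure R F)) := by
    intro x y hxy
    apply Subtype.ext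
    have := congrArg (fun z : integralClosure R F => (z : F)) hxy
    exact this
  have hint : (algebraMap R (integralClosure R F)).IsIntegral :=
    algebraMap_isIntegral_iff.2 inferInstance
  have hloc := hint.isLocalHom hinj
  have hu : IsUnit (algebraMap R (integralClosure R F) ⟨_, h6⟩) := by
    refine IsUnit.of_mul_eq_one (⟨(h : F), h1⟩ : integralClosure R F) ?_
    apply Subtype.ext
    show ((h⁻¹ : Fˣ) : F) * (h : F) = 1
    exact Units.inv_mul h
  have hu2 : IsUnit (⟨_, h6⟩ : R) := hloc.map_nonunit _ hu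
  obtain ⟨v, hv⟩ := hu2
  have h7 : ((v⁻¹ : Rˣ) : R) * (⟨_, h6⟩ : R) = 1 := by
    rw [← hv]
    exact Units.inv_mul v
  have h8 := congrArg (fun z : R => (z : F)) h7
  have h9 : (((v⁻¹ : Rˣ) : R) : F) * ((h⁻¹ : Fˣ) : F) = 1 := h8
  have h10 : (h : F) = (((v⁻¹ : Rˣ) : R) : F) := by
    have h0 : (h : F) ≠ 0 := h.ne_zero
    rw [Units.val_inv_eq_inv_val] at h9
    field_simp at h9
    exact h9.symm
  rw [h10]
  exact ((v⁻¹ : Rˣ) : R).2

section

variable {F : Type} [Field F] {A : Type} [CommGroup A] {φ : Fˣ →* A} {Nn : A → Subgroup A}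
  {H : Subgroup A}

/-- the additive group generated by the small elements of `H` -/
def JJ (φ : Fˣ →* A) (H : Subgroup A) : AddSubgroup F :=
  AddSubgroup.closure {x : F | ∃ h : Fˣ, (h : F) = x ∧ Sh φ H h}

lemma mem_jj {h : Fˣ} (hh : Sh φ H h) : (h : F) ∈ JJ φ H :=
  AddSubgroup.subset_closure ⟨h, rfl, hh⟩

/-- the multipliers of `J` -/
def RR (φ : Fˣ →* A) (H : Subgroup A) : Subring F where
  carrier := {z | ∀ j ∈ JJ φ H, z * j ∈ JJ φ H}
  mul_mem' := by
    intro a b ha hb j hj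
    rw [mul_assoc]
    exact ha _ (hb _ hj)
  one_mem' := by
    intro j hj
    rwa [one_mul]
  add_mem' := by
    intro a b ha hb j hj
    rw [add_mul]
    exact add_mem (ha _ hj) (hb _ hj)
  zero_mem' := by
    intro j hj
    rw [zero_mul]
    exact zero_mem _
  neg_mem' := by
    intro a ha j hj
    rw [neg_mul]
    exact neg_mem (ha _ hj)

/-- elements `≤ 1` of `H` are multipliers -/
lemma mem_rr {c : Fˣ} (hc : φ c ∈ H) (hc1 : Li φ H c 1) : (c : F) ∈ RR φ H := by
  intro j hj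
  induction hj using AddSubgroup.closure_induction with
  | mem x hx =>
    obtain ⟨h, rfl, hh⟩ := hx
    rw [← Units.val_mul]
    exact mem_jj (sh_mul hc hc1 hh)
  | zero => rw [mul_zero]; exact zero_mem _
  | add x y _ _ hx hy => rw [mul_add]; exact add_mem hx hy
  | neg x _ hx => rw [mul_neg]; exact neg_mem hx

variable (hK : Kr φ Nn H) (r s : Fˣ) (hr : φ r ∈ H) (hs : φ s ∈ H) (hrs : (r : F) + s = 1)
    (hr1 : φ r ≠ 1) (hs1 : φ s ≠ 1) (hrs' : φ s ≠ φ r)

include hK r s hr hs hrs hr1 hs1 hrs'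

/-- `y + J` for units `y` -/
lemma jj_add {j : F} (hj : j ∈ JJ φ H) : ∀ y : Fˣ, φ y = 1 → Li φ H y 1 → Li φ H 1 y →
    ∃ z : Fˣ, (z : F) = y + j ∧ φ z = 1 ∧ Li φ H z 1 ∧ Li φ H 1 z := by
  obtain ⟨n1, n2⟩ := li_neg1 hK r s hr hs hrs hr1 hs1 hrs'
  have hnH : φ (-1) ∈ H := by rw [hK.neg]; exact one_mem H
  induction hj using AddSubgroup.closure_induction with
  | mem x hx =>
    obtain ⟨h, rfl, hh⟩ := hx
    intro y hy h1 h2
    have hyH : φ y⁻¹ ∈ H := by rw [map_inv, hy, inv_one]; exact one_mem H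
    have h3 : Li φ H y⁻¹ 1 := by
      have := li_mul hyH h2
      rwa [inv_mul_cancel, mul_one] at this
    obtain ⟨z, hz, e, h4, h5⟩ := ff hK r s hr hs hrs hr1 hs1 hrs' (sh_mul hyH h3 hh)
    have hyH' : φ y ∈ H := by rw [hy]; exact one_mem H
    refine ⟨y * z, ?_, by rw [map_mul, hy, e, one_mul], ?_, ?_⟩
    · have h0 : (y : F) ≠ 0 := y.ne_zero
      rw [Units.val_mul, hz, Units.val_mul, Units.val_inv_eq_inv_val]
      field_simp
    · have := li_mul hyH' h4
      rw [mul_one] at this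
      exact li_trans this h1
    · have := li_mul hyH' h5
      rw [mul_one] at this
      exact li_trans h2 this
  | zero =>
    intro y hy h1 h2
    exact ⟨y, by rw [add_zero], hy, h1, h2⟩
  | add x x' _ _ hx hx' =>
    intro y hy h1 h2
    obtain ⟨z, hz, e, h3, h4⟩ := hx y hy h1 h2
    obtain ⟨z', hz', e', h5, h6⟩ := hx' z e h3 h4
    exact ⟨z', by rw [hz', hz, add_assoc], e', h5, h6⟩
  | neg x _ hx =>
    intro y hy h1 h2
    have m1 := li_mul hnH h1
    have m2 := li_mul hnH h2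
    simp only [neg_one_mul, mul_one] at m1 m2
    obtain ⟨z, hz, e, h3, h4⟩ := hx (-y) (by rw [phi_neg' hK]; exact hy) (li_trans m1 n1)
      (li_trans n2 m2)
    have m3 := li_mul hnH h3
    have m4 := li_mul hnH h4
    simp only [neg_one_mul, mul_one] at m3 m4
    refine ⟨-z, ?_, by rw [phi_neg' hK]; exact e, li_trans m3 n1, li_trans n2 m4⟩
    rw [Units.val_neg, hz, Units.val_neg]
    ring

lemma one_notMem_jj : (1 : F) ∉ JJ φ H := by
  intro h
  obtain ⟨z, hz, -⟩ := jj_add hK r s hr hs hrs hr1 hs1 hrs' (neg_mem h) 1 (map_one φ) (li_refl 1)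
    (li_refl 1)
  rw [Units.val_one, add_neg_cancel] at hz
  exact z.ne_zero hz

/-- inverses of small elements are not multipliers -/
lemma not_rr {h : Fˣ} (hh : Sh φ H h) : ((h⁻¹ : Fˣ) : F) ∉ RR φ H := by
  intro h1
  apply one_notMem_jj hK r s hr hs hrs hr1 hs1 hrs'
  have h2 := h1 _ (mem_jj hh)
  rwa [Units.inv_mul] at h2

variable {p : ℕ} (hp : p.Prime) (hexp : ∀ a : A, a ^ p = 1)

include hp hexp

lemma mem_or (x : F) : x ∈ (integralClosure (RR φ H) F).toSubring ∨
    x⁻¹ ∈ (integralClosure (RR φ H) F).toSubring := by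
  by_cases hx : x = 0
  · left
    rw [hx]
    exact zero_mem _
  have key : ∀ y : Fˣ, Li φ H (y ^ p) 1 → (y : F) ∈ (integralClosure (RR φ H) F).toSubring := by
    intro y hy
    show IsIntegral (RR φ H) (y : F)
    have h1 : ((y ^ p : Fˣ) : F) ∈ RR φ H := mem_rr (by rw [map_pow, hexp]; exact one_mem H) hy
    rw [Units.val_pow_eq_pow_val] at h1
    refine IsIntegral.of_pow hp.pos ?_
    exact isIntegral_algebraMap (x := (⟨(y : F) ^ p, h1⟩ : RR φ H))
  obtain ⟨y, rfl⟩ : ∃ y : Fˣ, (y : F) = x := ⟨Units.mk0 x hx, rfl⟩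
  have hyH : φ (y ^ p) ∈ H := by rw [map_pow, hexp]; exact one_mem H
  rcases li_tot hK r s hr hs hrs hr1 hs1 hrs' hyH with h | h
  · exact Or.inl (key y h)
  · right
    rw [← Units.val_inv_eq_inv_val]
    refine key _ ?_
    have h1 := li_mul (c := (y ^ p)⁻¹) (by rw [map_inv]; exact inv_mem hyH) h
    rwa [inv_mul_cancel, mul_one, ← inv_pow] at h1

/-- the valuation ring -/
theorem ring_ex : ∃ O' : ValuationSubring F, (∀ z ∈ RR φ H, z ∈ O') ∧
    (∀ h : Fˣ, φ h ∈ H → ((h : F) ∈ O' ↔ Li φ H h 1)) := by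
  refine ⟨ValuationSubring.ofSubring (integralClosure (RR φ H) F).toSubring
    (mem_or hK r s hr hs hrs hr1 hs1 hrs' hp hexp), ?_, ?_⟩
  · intro z hz
    show IsIntegral (RR φ H) z
    exact isIntegral_algebraMap (x := (⟨z, hz⟩ : RR φ H))
  · intro h hh
    constructor
    · intro h1
      have h1' : IsIntegral (RR φ H) (h : F) := h1
      by_contra h2
      have hhi : φ h⁻¹ ∈ H := by rw [map_inv]; exact inv_mem hh
      have h3 : Li φ H 1 h := (li_tot hK r s hr hs hrs hr1 hs1 hrs' hh).resolve_left h2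
      have h4 : Li φ H h⁻¹ 1 := by
        have := li_mul hhi h3
        rwa [inv_mul_cancel, mul_one] at this
      have h5 : Sh φ H h⁻¹ := by
        refine ⟨hhi, fun h6 => h2 ?_⟩
        have := li_mul hh h6
        rwa [mul_inv_cancel, mul_one] at this
      have h6 : ((h⁻¹ : Fˣ) : F) ∈ RR φ H := mem_rr hhi h4
      have h7 : (h : F) ∈ RR φ H := int_inv h6 h1'
      have h8 := not_rr hK r s hr hs hrs hr1 hs1 hrs' h5
      rw [inv_inv] at h8
      exact h8 h7
    · intro h1
      show IsIntegral (RR φ H) (h : F)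
      exact isIntegral_algebraMap (x := (⟨_, mem_rr hh h1⟩ : RR φ H))

end

end Pool.Agent.V7H42.KR
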