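import Mathlib
import Pool.Agent.V7H79.EW.Cnd
import Pool.Agent.V7H42.KR.Spec3

set_option autoImplicit false

/-! A subfield that contains all `p`-th powers. -/

namespace Pool.Agent.V7H42.KR

open Polynomial

theorem t_INTF : S_INTF := by
  classical
  intro k _ p hp hp0 hinf L hL
  obtain ⟨x, hx⟩ : ∃ x : k, Pool.Agent.V7H79.EW.Dd p (x ^ p) ≠ 0 := by
    by_contra hc
    push Not at hc
    obtain ⟨P, hP⟩ : ∃ P : k[X], P = ∏ i ∈ Pool.Agent.V7H79.EW.ex p,
      (X ^ (p * (p - 1)) - X ^ (p * i)) := ⟨_, rfl⟩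
    have h1 : P = 0 := by
      refine Polynomial.funext fun y => ?_
      rw [eval_zero, ← hc y, hP, Pool.Agent.V7H79.EW.Dd, eval_prod]
      refine Finset.prod_congr rfl fun i _ => ?_
      rw [eval_sub, eval_pow, eval_pow, eval_X, pow_mul, pow_mul]
    rw [hP, Finset.prod_eq_zero_iff] at h1
    obtain ⟨i, hi, h2⟩ := h1
    have h3 : p * i ≠ p * (p - 1) := fun h =>
      Finset.ne_of_mem_erase hi (Nat.eq_of_mul_eq_mul_left hp.pos h)
    have h4 := congrArg (fun q : k[X] => q.coeff (p * (p - 1))) h2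
    simp only [coeff_sub, coeff_X_pow, coeff_zero, if_true, if_neg h3.symm, sub_zero] at h4
    exact one_ne_zero h4
  rw [eq_top_iff]
  intro z _
  have h1 := Pool.Agent.V7H79.EW.interp (R := L.toSubring) (p := p) hp.one_le (u := x ^ p) (z := z)
    (hL x) (fun i => hL _)
  have h2 : Pool.Agent.V7H79.EW.Dd p (x ^ p) * (p : k) ∈ L := by
    have h3 := Pool.Agent.V7H79.EW.interp (R := L.toSubring) (p := p) hp.one_le (u := x ^ p)
      (z := 1) (hL x) (fun i => hL _)
    rw [mul_one] at h3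
    exact h3
  have h4 : z = (Pool.Agent.V7H79.EW.Dd p (x ^ p) * (p : k))⁻¹ *
      (Pool.Agent.V7H79.EW.Dd p (x ^ p) * ((p : k) * z)) := by
    field_simp
  rw [h4]
  exact mul_mem (inv_mem h2) h1

end Pool.Agent.V7H42.KR
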