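import Mathlib
import Pool.Agent.Y920.EP.Stm

set_option autoImplicit false

/-! MP_600e55_nt: isolated subgroups. Independent parts (second list). -/

namespace Pool.Agent.V7H42.KR

open Pool.Agent.Y920.EP

/-- norms from `k(h^(1/p))`, `k` the residue field, lift to norms from `F(h^(1/p))` -/
def S_NLIFT : Prop := ∀ (F : Type) [Field F] (p : ℕ), p.Prime → ∀ (O : ValuationSubring F)
  (h : Fˣ) (hh : h ∈ O.unitGroup) (v : (IsLocalRing.ResidueField O)ˣ),
    v ∈ nmG p (O.unitGroupToResidueFieldUnits ⟨h, hh⟩) →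
      ∃ (w : Fˣ) (hw : w ∈ O.unitGroup), w ∈ nmG p h ∧ O.unitGroupToResidueFieldUnits ⟨w, hw⟩ = v

end Pool.Agent.V7H42.KR
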