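import Mathlib
import Pool.Agent.V7H42.KR.Ring
import Pool.Agent.V7H42.EW.Last

set_option autoImplicit false

/-! One norm group of order `p`: the contradiction if all classes are nonrigid. -/

namespace Pool.Agent.V7H42.KR

open Pool.Agent.Y920.EP
open Pool.Agent.V7H42.EW (II O2 ii_t ii_zero ii_mul ii_mul' le_o2 o2_inv pa_all uniform PA o2_unit
  o2_pow mem_ug)

/-- the maximal ideal lies in `I` -/
theorem m_le {F : Type} [Field F] {p : ℕ} (hp : p.Prime) (hp0 : (p : F) ≠ 0)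
    {T : Subgroup Fˣ} (hT : pwG F p ≤ T) (hfT : Finite (Fˣ ⧸ T))
    (O' : ValuationSubring F) (hpO : (p : F)⁻¹ ∈ O')
    (R : Subring F) (hRO : ∀ z ∈ R, z ∈ O')
    (hTR : ∀ y : Fˣ, y ∈ T → (y : F) ∈ O' → (y : F) ∈ R)
    (J : AddSubgroup F) (hRJ : ∀ z ∈ R, ∀ j ∈ J, z * j ∈ J)
    (hJ : ∀ j ∈ J, ∃ t : Fˣ, t ∈ T ∧ (t : F) = 1 + j ∧ (t : F) ∈ O' ∧ (t : F)⁻¹ ∈ O')
    (u : Fˣ) (huO : (u : F) ∈ O') (huO' : (u : F)⁻¹ ∉ O') (huJ : (u : F) ^ p ∈ J) :
    (u : F) ∈ II T O' := by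
  classical
  by_contra huI
  have hS : (Set.univ : Set (Fˣ ⧸ T)).Finite := Set.finite_univ
  have hA : ∀ θ : F, θ ∈ O2 hp0 hT hpO → PA T O' R θ := fun θ hθ =>
    pa_all hp0 hT hpO hp hTR hRO _ hS (fun v _ _ => Set.mem_univ _) u huO huI huO' hθ
  obtain ⟨t, ht, htO, htI, htS⟩ := uniform hp0 hT hpO hp hTR hRO hA hS.toFinset
  have htz : ∀ z : F, z ∈ O' → ∃ r ∈ R, ∃ i ∈ II T O', (t : F) * z = r + i := by
    intro z hz
    by_cases hzI : z ∈ II T O'
    · exact ⟨0, zero_mem _, t * z, ii_mul' hzI htO, by rw [zero_add]⟩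
    · have hz0 : z ≠ 0 := by
        rintro rfl
        exact hzI ii_zero
      refine htS (Units.mk0 z hz0) hz hzI ?_
      rw [Set.Finite.mem_toFinset]
      exact Set.mem_univ _
  refine o2_unit hp0 hT hpO (o2_pow hp0 hT hpO huI p) htI ?_
  intro z hz
  obtain ⟨r, hr, i, hi, e⟩ := htz z hz
  obtain ⟨t1, ht1, et1, ht1O, ht1O'⟩ := hJ (r * (u : F) ^ p) (hRJ r hr _ huJ)
  obtain ⟨t2, ht2, et2⟩ := ii_t (ii_mul (ii_mul' hi (pow_mem huO p)) ht1O')
  refine ⟨t1 * t2, T.mul_mem ht1 ht2, ?_⟩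
  rw [Units.val_mul, et2, mul_add, mul_one]
  have h0 : (t1 : F) ≠ 0 := t1.ne_zero
  have e2 : (t1 : F) * ((u : F) ^ p * i * (t1 : F)⁻¹) = (u : F) ^ p * i := by field_simp
  rw [e2, et1]
  linear_combination (-(u : F) ^ p) * e

section

variable {F : Type} [Field F] {A : Type} [CommGroup A] {φ : Fˣ →* A} {Nn : A → Subgroup A}
  {H : Subgroup A}

/-- all classes nonrigid and a norm group `H`: impossible -/
theorem no_kr (hRAM : S_RAM) (hCYC : S_CYC) (hPERF : S_PERF) {p : ℕ} (hp : p.Prime)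
    (hp0 : (p : F) ≠ 0) (hsurj : Function.Surjective φ) (hker : φ.ker = pwG F p) [Finite A]
    (hexp : ∀ a : A, a ^ p = 1) (hK : Kr φ Nn H) (hH1 : H ≠ ⊥) (hH2 : H ≠ ⊤)
    (hall : ∀ a : A, a ≠ 1 → a ∈ NR φ) : False := by
  classical
  obtain ⟨a, haH, ha1⟩ : ∃ a ∈ H, a ≠ 1 := by
    by_contra hc
    push Not at hc
    exact hH1 ((Subgroup.eq_bot_iff_forall _).2 hc)
  obtain ⟨b, hbH⟩ : ∃ b : A, b ∉ H := by
    by_contra hc
    push Not at hc
    exact hH2 (eq_top_iff.2 fun b _ => hc b)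
  obtain ⟨-, r, s, hra, hrs, hs1, hsa⟩ := hall a ha1
  have hr : φ r ∈ H := by rw [hra]; exact haH
  have hr1 : φ r ≠ 1 := by rw [hra]; exact ha1
  have hrs' : φ s ≠ φ r := by rw [hra]; exact hsa
  have hs : φ s ∈ H := by
    refine hK.le _ hr hr1 ?_
    have h1 := hK.sum (-r) s (by rw [Units.val_neg]; linear_combination hrs)
    rwa [phi_neg' hK] at h1
  obtain ⟨O', hRO, hHO⟩ := ring_ex hK r s hr hs hrs hr1 hs1 hrs' hp hexp
  obtain ⟨⟨a1, a2⟩, -, -⟩ := fd hK hr hs hrs hr1 hs1 hrs'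
  have hinvH : ∀ h : Fˣ, φ h ∈ H → ((h : F)⁻¹ ∈ O' ↔ Li φ H 1 h) := by
    intro h hh
    rw [← Units.val_inv_eq_inv_val, hHO _ (by rw [map_inv]; exact inv_mem hh)]
    constructor
    · intro h1
      have := li_mul hh h1
      rwa [mul_inv_cancel, mul_one] at this
    · intro h1
      have := li_mul (c := h⁻¹) (by rw [map_inv]; exact inv_mem hh) h1
      rwa [inv_mul_cancel, mul_one] at this
  -- the class of `r` has no representative in `1 + m`
  have hone : ∀ (c : Fˣ) (m : F), (c : F) = 1 + m → φ c = a → m ∈ O' → (m = 0 ∨ m⁻¹ ∉ O') →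
      False := by
    intro c m hc hca hm hm'
    by_cases hm0 : m = 0
    · rw [hm0, add_zero] at hc
      apply ha1
      rw [← hca, Units.ext (hc.trans Units.val_one.symm), map_one]
    have hm'' := hm'.resolve_left hm0
    obtain ⟨v, rfl⟩ : ∃ v : Fˣ, (v : F) = m := ⟨Units.mk0 m hm0, rfl⟩
    have h1 := hK.sum (-c) (-v) (by rw [Units.val_neg, Units.val_neg, hc]; ring)
    rw [phi_neg' hK, phi_neg' hK, hca] at h1
    have hvH : φ v ∈ H := hK.le _ haH ha1 h1
    have hsh : Sh φ H v := ⟨hvH, fun h2 => hm'' ((hinvH v hvH).2 h2)⟩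
    obtain ⟨z, hz, hz1, -⟩ := ff hK r s hr hs hrs hr1 hs1 hrs' hsh
    apply ha1
    rw [← hca, Units.ext (hc.trans hz.symm), hz1]
  -- `p` is a unit
  have hkq : ∀ g g' : Fˣ, (g : Fˣ ⧸ φ.ker) = (g' : Fˣ ⧸ φ.ker) ↔ φ g = φ g' := by
    intro g g'
    rw [QuotientGroup.eq, MonoidHom.mem_ker, map_mul, map_inv, inv_mul_eq_one]
  have hfq : Finite (Fˣ ⧸ φ.ker) := by
    refine Finite.of_injective (fun q : Fˣ ⧸ φ.ker => φ q.out) fun q q' h => ?_
    have h1 : (q.out : Fˣ ⧸ φ.ker) = (q'.out : Fˣ ⧸ φ.ker) := (hkq _ _).2 h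
    rwa [QuotientGroup.out_eq', QuotientGroup.out_eq'] at h1
  have hpO : (p : F)⁻¹ ∈ O' := by
    by_contra hpn
    have hfq' : Finite (Fˣ ⧸ pwG F p) := by rw [← hker]; exact hfq
    obtain ⟨z, hz, m, hm1, hm2, hm3⟩ := hPERF F p hp O' hfq' hpn r (mem_ug.2
      ⟨(hHO r hr).2 a1, (hinvH r hr).2 a2⟩)
    refine hone (r / z ^ p) m ?_ ?_ hm2 hm3
    · have h0 : ((z : F)) ^ p ≠ 0 := pow_ne_zero _ z.ne_zero
      rw [Units.val_div_eq_div_val, Units.val_pow_eq_pow_val, hm1]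
      field_simp
    · rw [map_div, map_pow, hexp, div_one, hra]
  -- the one-units
  have hTR : ∀ y : Fˣ, y ∈ φ.ker → (y : F) ∈ O' → (y : F) ∈ RR φ H := by
    intro y hy h1
    have hyH : φ y ∈ H := by rw [MonoidHom.mem_ker.1 hy]; exact one_mem H
    exact mem_rr hyH ((hHO y hyH).1 h1)
  have hOne : One φ.ker O' := by
    intro y hy hy'
    have hy0 : y ≠ 0 := by
      rintro rfl
      rw [inv_zero] at hy'
      exact hy' hy
    obtain ⟨u, rfl⟩ : ∃ u : Fˣ, (u : F) = y := ⟨Units.mk0 y hy0, rfl⟩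
    have hupH : φ (u ^ p) ∈ H := by rw [map_pow, hexp]; exact one_mem H
    have hsh : Sh φ H (u ^ p) := by
      refine ⟨hupH, fun h2 => hy' ?_⟩
      have h3 := (hinvH _ hupH).2 h2
      rw [Units.val_pow_eq_pow_val] at h3
      have h4 : (u : F)⁻¹ = (u : F) ^ (p - 1) * ((u : F) ^ p)⁻¹ := by
        have h5 : (u : F) ^ p = (u : F) ^ (p - 1) * u := by
          rw [← pow_succ, Nat.sub_add_cancel hp.one_le]
        have h6 : (u : F) ^ (p - 1) ≠ 0 := pow_ne_zero _ u.ne_zero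
        have h7 : (u : F) ≠ 0 := u.ne_zero
        rw [h5]
        generalize (u : F) ^ (p - 1) = B at h6 ⊢
        field_simp
      rw [h4]
      exact mul_mem (pow_mem hy _) h3
    have h1 := m_le hp hp0 (T := φ.ker) hker.ge hfq O' hpO (RR φ H) hRO hTR (JJ φ H)
      (fun z hz j hj => hz j hj) (by
        intro j hj
        obtain ⟨z, hz, hz1, hz2, hz3⟩ := jj_add hK r s hr hs hrs hr1 hs1 hrs' hj 1 (map_one φ)
          (li_refl 1) (li_refl 1)
        have hzH : φ z ∈ H := by rw [hz1]; exact one_mem H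
        exact ⟨z, hz1, by rw [hz, Units.val_one], (hHO z hzH).2 hz2, (hinvH z hzH).2 hz3⟩)
      u hy hy' (by
        have := mem_jj hsh
        rwa [Units.val_pow_eq_pow_val] at this)
    obtain ⟨t, ht, e⟩ := ii_t h1
    exact ⟨t, ht, e⟩
  -- nonrigid elements are units
  have hunit : ∀ (v v' : Fˣ), (v : F) + v' = 1 → φ v ≠ 1 → φ v' ≠ 1 → φ v' ≠ φ v →
      v ∈ O'.unitGroup := by
    intro v v' hv hv1 hv1' hvv
    rw [mem_ug]
    constructor
    · by_contra h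
      have h1 := (O'.mem_or_inv_mem (v : F)).resolve_left h
      obtain ⟨t, ht, e⟩ := hOne (-(v : F)⁻¹) (neg_mem h1) (by
        rw [inv_neg, inv_inv]
        exact fun h2 => h (neg_mem_iff.1 h2))
      apply hvv
      have h2 : v' = -(v * t) := by
        apply Units.ext
        rw [Units.val_neg, Units.val_mul, e]
        have h3 : (v : F) ≠ 0 := v.ne_zero
        field_simp
        linear_combination hv
      rw [h2, phi_neg' hK, map_mul, MonoidHom.mem_ker.1 ht, mul_one]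
    · by_contra h
      have h1 := (O'.mem_or_inv_mem (v : F)).resolve_right h
      obtain ⟨t, ht, e⟩ := hOne (-(v : F)) (neg_mem h1) (by
        rw [inv_neg]
        exact fun h2 => h (neg_mem_iff.1 h2))
      apply hv1'
      have h2 : v' = t := Units.ext (by rw [e]; linear_combination hv)
      rw [h2]
      exact ht
  have hcl : ∀ c : Fˣ ⧸ φ.ker, ∃ u ∈ O'.unitGroup, ((u : Fˣ) : Fˣ ⧸ φ.ker) = c := by
    intro c
    obtain ⟨g, rfl⟩ := QuotientGroup.mk_surjective c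
    by_cases hg : φ g = 1
    · exact ⟨1, one_mem _, (hkq _ _).2 (by rw [map_one, hg])⟩
    · obtain ⟨-, v, v', hv, hvv, h1, h2⟩ := hall _ hg
      exact ⟨v, hunit v v' hvv (by rw [hv]; exact hg) h1 (by rw [hv]; exact h2), (hkq _ _).2 hv⟩
  rcases finite_or_infinite (IsLocalRing.ResidueField O') with hfin | hinf
  · -- finite residue field: cyclic
    obtain ⟨g, hg⟩ := hCYC F φ.ker O' hOne hcl hfin
    obtain ⟨γ, rfl⟩ := QuotientGroup.mk_surjective g
    have hg' : ∀ c : A, ∃ k : ℕ, c = φ γ ^ k := by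
      intro c
      obtain ⟨x, rfl⟩ := hsurj c
      obtain ⟨k, hk⟩ := hg (x : Fˣ ⧸ φ.ker)
      refine ⟨k, ?_⟩
      rw [← QuotientGroup.mk_pow, hkq, map_pow] at hk
      exact hk
    obtain ⟨k, hk⟩ := hg' a
    have hcop : Nat.Coprime k p := by
      rw [Nat.coprime_comm, Nat.Prime.coprime_iff_not_dvd hp]
      rintro ⟨m, rfl⟩
      apply ha1
      rw [hk, pow_mul, hexp, one_pow]
    obtain ⟨m, hm⟩ := Nat.exists_mul_mod_eq_one_of_coprime hcop hp.one_lt
    have h1 : (φ γ ^ k) ^ m = φ γ := by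
      rw [← pow_mul]
      conv_lhs => rw [← Nat.div_add_mod (k * m) p, hm.2]
      rw [pow_add, pow_one, pow_mul, hexp, one_pow, one_mul]
    have h2 : φ γ ∈ H := by
      rw [← h1, ← hk]
      exact pow_mem haH m
    obtain ⟨k', hk'⟩ := hg' b
    rw [hk'] at hbH
    exact hbH (pow_mem h2 k')
  · -- infinite residue field
    have hb1 : b ≠ 1 := by
      rintro rfl
      exact hbH (one_mem H)
    obtain ⟨-, v, v', hv, hvv, h1, h2⟩ := hall b hb1
    have hvu := hunit v v' hvv (by rw [hv]; exact hb1) h1 (by rw [hv]; exact h2)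
    obtain ⟨w, hw, hwb, t, ht, et⟩ := hRAM F φ.ker O' hOne hcl hinf (v : Fˣ ⧸ φ.ker)
    rw [hkq, hv] at hwb
    -- `q = -v / w` is a unit of class `1`
    have hq1 : φ (-v / w) = 1 := by
      rw [map_div, phi_neg' hK, hv, hwb, div_self']
    have hqO : ((-v / w : Fˣ) : F) ∈ O' := by
      rw [Units.val_div_eq_div_val, Units.val_neg, div_eq_mul_inv]
      exact mul_mem (neg_mem (mem_ug.1 hvu).1) (mem_ug.1 hw).2
    have hqL : Li φ H (-v / w) 1 := (hHO _ (by rw [hq1]; exact one_mem H)).1 hqO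
    have hwM : Ml φ w 1 := ⟨t, by rw [et, Units.val_one], by rw [MonoidHom.mem_ker.1 ht, map_one]⟩
    have h3 : Ml φ (-v / w * w) (-v / w * 1) := (ml_mul _ _ _).2 hwM
    rw [mul_one, div_mul_cancel] at h3
    obtain ⟨z, hz, hz1⟩ := hqL (-v) (by rw [phi_neg' hK, hv]; exact hbH) h3
    apply h1
    rw [map_one] at hz1
    rw [← hz1]
    congr 1
    apply Units.ext
    rw [hz, Units.val_one, Units.val_neg]
    linear_combination hvv

end

end Pool.Agent.V7H42.KR
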