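import Mathlib
import Pool.Agent.V7H42.KR.Fin
import Pool.Agent.V7H42.ET.Rng
import Pool.Agent.V7H51.NR.Fin
import Pool.Agent.V7H33.KR.CYC
import Pool.Agent.V7H72.KR.RAM
import Pool.Agent.V7H72.KR.PERF
import Pool.Agent.V7H79.EW.Card
import Pool.Agent.V7H79.EW.Two

set_option autoImplicit false

/-! Isolated subgroups: the valuation ring. -/

namespace Pool.Agent.V7H42.KR

open Pool.Agent.Y920.EP
open Pool.Agent.V7H51.NR (symm_all one_add_mem_nmG rel_NnF ram_all mem_unitGroup_of pow_mem_nmG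
  pwG_le_nmG)

/-- one isolated subgroup, all classes nonrigid: impossible -/
theorem iso_false {p : ℕ} (hp : p.Prime) {F : Type} [Field F]
    (hζ : ∃ ζ : F, IsPrimitiveRoot ζ p) (hε : ∃ ε : F, ε ^ p = -1) {A : Type} [CommGroup A]
    {φ : Fˣ →* A} (hφ : Function.Surjective φ) (hk : φ.ker = pwG F p) [Finite A]
    (hall : ∀ a : A, a ≠ 1 → a ∈ NR φ) (H : Subgroup Fˣ) (hTH : pwG F p < H) (hH : H ≠ ⊤)
    (hiso : ∀ h ∈ H, h ∉ pwG F p → nmG p h ≤ H) : False := by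
  have hpF : (p : F) ≠ 0 := by
    obtain ⟨ζ, hζ⟩ := hζ
    have : NeZero p := ⟨hp.ne_zero⟩
    exact hζ.neZero'.ne
  have hneg : (-1 : Fˣ) ∈ pwG F p := by
    obtain ⟨ε, hε⟩ := hε
    have hε0 : ε ≠ 0 := by
      rintro rfl
      rw [zero_pow hp.ne_zero] at hε
      exact one_ne_zero (neg_eq_zero.1 hε.symm)
    exact ⟨Units.mk0 ε hε0, by ext; simp [hε]⟩
  have hrel := rel_NnF hφ hk hp hζ hε
  have hmap : ∀ x : Fˣ, φ x ∈ H.map φ ↔ x ∈ H := by
    intro x
    constructor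
    · rintro ⟨y, hy, e⟩
      have h1 : φ (x / y) = 1 := by rw [map_div, e, div_self']
      rw [← MonoidHom.mem_ker, hk] at h1
      have h2 := mul_mem (hTH.le h1) hy
      rwa [div_mul_cancel] at h2
    · exact fun h => ⟨x, h, rfl⟩
  have hK : Kr φ (NnF p φ hφ) (H.map φ) := by
    refine ⟨?_, hrel.symm, ?_, ?_⟩
    · rw [← MonoidHom.mem_ker, hk]
      exact hneg
    · intro u v huv
      by_cases hu : φ u = 1
      · rw [NnF, if_pos hu]; trivial
      rw [Pool.Agent.V7H51.NR.mem_NnF hφ hk hp hu]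
      exact one_add_mem_nmG hp hε huv
    · intro h hh h1 b hb
      obtain ⟨x, hx, rfl⟩ := hh
      obtain ⟨y, rfl⟩ := hφ b
      rw [Pool.Agent.V7H51.NR.mem_NnF hφ hk hp h1] at hb
      rw [hmap]
      refine hiso x hx ?_ hb
      rwa [← hk, MonoidHom.mem_ker]
  refine no_kr Pool.Agent.V7H72.KR.t_RAM Pool.Agent.V7H33.KR.t_CYC Pool.Agent.V7H72.KR.t_PERF hp hpF hφ hk
    (exp_p hφ hk) hK ?_ ?_ hall
  · intro hbot
    obtain ⟨-, x, hx, hxT⟩ := SetLike.lt_iff_le_and_exists.1 hTH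
    have h1 : φ x ∈ H.map φ := ⟨x, hx, rfl⟩
    rw [hbot, Subgroup.mem_bot, ← MonoidHom.mem_ker, hk] at h1
    exact hxT h1
  · intro htop
    apply hH
    rw [eq_top_iff]
    intro x _
    rw [← hmap, htop]
    trivial

/-- one isolated subgroup: a valuation ring -/
theorem iso_ring {p : ℕ} (hp : p.Prime) {F : Type} [Field F]
    (hζ : ∃ ζ : F, IsPrimitiveRoot ζ p) (hε : ∃ ε : F, ε ^ p = -1)
    (hfin : (pwG F p).index ≠ 0) (H : Subgroup Fˣ) (hTH : pwG F p < H) (hH : H ≠ ⊤)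
    (hiso : ∀ h ∈ H, h ∉ pwG F p → nmG p h ≤ H) :
    ∃ O : ValuationSubring F, One (pwG F p) O ∧ (p : F)⁻¹ ∈ O ∧ O.unitGroup ⊔ pwG F p ≠ ⊤ := by
  have hpF : (p : F) ≠ 0 := by
    obtain ⟨ζ, hζ⟩ := hζ
    have : NeZero p := ⟨hp.ne_zero⟩
    exact hζ.neZero'.ne
  have hneg : (-1 : Fˣ) ∈ pwG F p := by
    obtain ⟨ε, hε⟩ := hε
    have hε0 : ε ≠ 0 := by
      rintro rfl
      rw [zero_pow hp.ne_zero] at hε
      exact one_ne_zero (neg_eq_zero.1 hε.symm)
    exact ⟨Units.mk0 ε hε0, by ext; simp [hε]⟩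
  have hfA : Finite (Fˣ ⧸ pwG F p) := by
    have : (pwG F p).FiniteIndex := ⟨hfin⟩
    infer_instance
  have hidx : (pwG F p).index ≠ 2 := by
    intro h2
    obtain ⟨hle, hnle⟩ := SetLike.lt_iff_le_and_exists.1 hTH
    have h3 : (pwG F p).relIndex H * H.index = (pwG F p).index := Subgroup.relIndex_mul_index hle
    have h4 : (pwG F p).relIndex H ≠ 1 := by
      intro h5
      obtain ⟨x, hx, hxT⟩ := hnle
      exact hxT (Subgroup.relIndex_eq_one.1 h5 hx)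
    have h5 : H.index ≠ 1 := fun h6 => hH (Subgroup.index_eq_one.1 h6)
    rw [h2] at h3
    have h6 : (pwG F p).relIndex H ∣ 2 := ⟨_, h3.symm⟩
    rcases (Nat.dvd_prime Nat.prime_two).1 h6 with h7 | h7
    · exact h4 h7
    · rw [h7] at h3
      omega
  by_cases hex : ∃ c : Fˣ ⧸ pwG F p, c ≠ 1 ∧ c ∉ Pool.Agent.V7H42.ET.nonrigidC (pwG F p)
  · exact Pool.Agent.V7H79.EW.ring_one hp hζ rfl hneg (Set.toFinite _) hex hidx
  push Not at hex
  exfalso
  exact iso_false hp hζ hε (A := Fˣ ⧸ pwG F p) (φ := QuotientGroup.mk' (pwG F p))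
    (QuotientGroup.mk'_surjective _) (QuotientGroup.ker_mk' _) (fun a ha => by
      rw [Pool.Agent.V7H42.ET.nonrigid_eq]
      exact hex a ha) H hTH hH hiso

/-- the converse -/
theorem iso_conv {p : ℕ} (hp : p.Prime) {F : Type} [Field F]
    (hζ : ∃ ζ : F, IsPrimitiveRoot ζ p) (hε : ∃ ε : F, ε ^ p = -1)
    (O : ValuationSubring F) (hO : One (pwG F p) O) (hpO : (p : F)⁻¹ ∈ O)
    (hne : O.unitGroup ⊔ pwG F p ≠ ⊤) (hidx : (pwG F p).index ≠ p) :
    ∃ H : Subgroup Fˣ, pwG F p < H ∧ H ≠ ⊤ ∧ ∀ h ∈ H, h ∉ pwG F p → nmG p h ≤ H := by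
  have hpF : (p : F) ≠ 0 := by
    obtain ⟨ζ, hζ⟩ := hζ
    have : NeZero p := ⟨hp.ne_zero⟩
    exact hζ.neZero'.ne
  have hPw : Pw p O := by
    refine ⟨hpO, hpF, fun x hx hx' => ?_⟩
    obtain ⟨t, ht, e⟩ := hO x hx hx'
    obtain ⟨y, rfl⟩ := ht
    exact ⟨y, by rw [← e]; simp⟩
  have hram : ∀ a : Fˣ, a ∉ O.unitGroup ⊔ pwG F p → nmG p a ≤ Subgroup.zpowers a ⊔ pwG F p :=
    fun a ha => ram_all hp hζ hε hPw ha
  -- powers of `a` that are prime to `p`
  have hgen : ∀ (S : Subgroup Fˣ), pwG F p ≤ S → ∀ (c : Fˣ) (n : ℤ), ¬ (p : ℤ) ∣ n → c ^ n ∈ S →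
      c ∈ S := by
    intro S hS c n hn hc
    refine Pool.Agent.R675.TP.mem_of_pow hp hS (j := n.natAbs)
      (fun hd' => hn (Int.natCast_dvd.2 hd')) ?_
    rcases Int.natAbs_eq n with e | e
    · rw [e, zpow_natCast] at hc; exact hc
    · rw [e, zpow_neg, zpow_natCast] at hc; exact inv_mem_iff.1 hc
  have hdvd : ∀ (c : Fˣ) (n : ℤ), (p : ℤ) ∣ n → c ^ n ∈ pwG F p := by
    rintro c _ ⟨m, rfl⟩
    refine ⟨c ^ m, ?_⟩
    change (c ^ m) ^ p = _
    rw [← zpow_natCast, ← zpow_mul, mul_comm]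
  by_cases hU : pwG F p < O.unitGroup ⊔ pwG F p
  · -- the classes of the units
    refine ⟨O.unitGroup ⊔ pwG F p, hU, hne, ?_⟩
    intro h hh hhT c hc
    by_contra hcU
    have hcp : c ∉ pwG F p := fun h => hcU (Subgroup.mem_sup_right h)
    obtain ⟨ζ, hζ'⟩ := hζ
    have h1 : h ∈ nmG p c := symm_all hp hζ' hhT hcp hc
    obtain ⟨z, hz, y, hy, hxy⟩ := Subgroup.mem_sup.1 (hram c hcU h1)
    obtain ⟨n, rfl⟩ := Subgroup.mem_zpowers_iff.1 hz
    by_cases hd : (p : ℤ) ∣ n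
    · apply hhT
      rw [← hxy]
      exact mul_mem (hdvd c n hd) hy
    · apply hcU
      refine hgen _ le_sup_right c n hd ?_
      have h4 : c ^ n = h * y⁻¹ := by rw [← hxy, mul_inv_cancel_right]
      rw [h4]
      exact mul_mem hh (inv_mem (Subgroup.mem_sup_right hy))
  · -- all units are `p`-th powers
    have hUT : O.unitGroup ⊔ pwG F p = pwG F p := by
      by_contra h
      exact hU (lt_of_le_of_ne le_sup_right (Ne.symm h))
    obtain ⟨b, hb⟩ : ∃ b : Fˣ, b ∉ pwG F p := by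
      by_contra hc
      push Not at hc
      apply hne
      rw [hUT, eq_top_iff]
      exact fun b _ => hc b
    refine ⟨Subgroup.zpowers b ⊔ pwG F p, ?_, ?_, ?_⟩
    · refine lt_of_le_of_ne le_sup_right ?_
      intro h
      apply hb
      rw [h]
      exact Subgroup.mem_sup_left (Subgroup.mem_zpowers b)
    · intro htop
      apply hidx
      -- the index of `F*^p` is `p`
      have h1 : ∀ x : Fˣ, ∃ n : ℤ, x / b ^ n ∈ pwG F p := by
        intro x
        have hx : x ∈ Subgroup.zpowers b ⊔ pwG F p := by rw [htop]; trivial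
        obtain ⟨z, hz, y, hy, hxy⟩ := Subgroup.mem_sup.1 hx
        obtain ⟨n, rfl⟩ := Subgroup.mem_zpowers_iff.1 hz
        refine ⟨n, ?_⟩
        rw [← hxy, mul_div_cancel_left]
        exact hy
      have h2 : ∀ c : Fˣ ⧸ pwG F p, c ∈ Subgroup.zpowers (b : Fˣ ⧸ pwG F p) := by
        intro c
        obtain ⟨x, rfl⟩ := QuotientGroup.mk_surjective c
        obtain ⟨n, hn⟩ := h1 x
        refine ⟨n, ?_⟩
        change (b : Fˣ ⧸ pwG F p) ^ n = _
        rw [← QuotientGroup.mk_zpow, QuotientGroup.eq, mul_comm, ← div_eq_mul_inv]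
        exact hn
      have h3 : orderOf (b : Fˣ ⧸ pwG F p) = Nat.card (Fˣ ⧸ pwG F p) := by
        rw [← Nat.card_zpowers, (Subgroup.eq_top_iff' _).2 h2, Subgroup.card_top]
      have h4 : orderOf (b : Fˣ ⧸ pwG F p) = p := by
        refine orderOf_eq_prime_iff (hp := ⟨hp⟩) |>.2 ⟨?_, ?_⟩
        · rw [← QuotientGroup.mk_pow, QuotientGroup.eq_one_iff]
          exact ⟨b, rfl⟩
        · rw [Ne, QuotientGroup.eq_one_iff]
          exact hb
      change Nat.card (Fˣ ⧸ pwG F p) = p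
      rw [← h3, h4]
    · intro h hh hhT c hc
      have hhU : h ∉ O.unitGroup ⊔ pwG F p := by rw [hUT]; exact hhT
      have h2 : Subgroup.zpowers h ⊔ pwG F p ≤ Subgroup.zpowers b ⊔ pwG F p := by
        refine sup_le ?_ le_sup_right
        rw [Subgroup.zpowers_le]
        exact hh
      exact h2 (hram h hhU hc)

end Pool.Agent.V7H42.KR
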