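import Mathlib
import Pool.Agent.V7H42.KR.Iso
import Pool.Agent.V7H42.KR.Spec2

set_option autoImplicit false

/-! Isolated subgroups and the residue field. -/

namespace Pool.Agent.V7H42.KR

open Pool.Agent.Y920.EP
open Pool.Agent.V7H42.EW (mem_ug)
open Pool.Agent.V7H42.ET (nonrigidC nonrigid_eq)
open Pool.Agent.V7H51.NR (symm_all ram_all nmG_two pwG_le_nmG)
open Pool.Agent.V7H33.KR (ker_mem)

/-- nonrigid elements are units -/
lemma nonrig_mem {F : Type} [Field F] {T : Subgroup Fˣ} (hneg : (-1 : Fˣ) ∈ T)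
    {O : ValuationSubring F} (hO : One T O) {x s : Fˣ} (hxs : (x : F) + s = 1) (hs : s ∉ T)
    (hsx : s / x ∉ T) : x ∈ O.unitGroup := by
  rw [mem_ug]
  constructor
  · by_contra h
    have h1 := (O.mem_or_inv_mem (x : F)).resolve_left h
    obtain ⟨t, ht, e⟩ := hO (-(x : F)⁻¹) (neg_mem h1) (by
      rw [inv_neg, inv_inv]
      exact fun h2 => h (neg_mem_iff.1 h2))
    apply hsx
    have h2 : s / x = -1 * t := by
      apply Units.ext
      rw [Units.val_mul, Units.val_neg, Units.val_one, Units.val_div_eq_div_val, e]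
      have h3 : (x : F) ≠ 0 := x.ne_zero
      field_simp
      linear_combination hxs
    rw [h2]
    exact mul_mem hneg ht
  · by_contra h
    have h1 := (O.mem_or_inv_mem (x : F)).resolve_right h
    obtain ⟨t, ht, e⟩ := hO (-(x : F)) (neg_mem h1) (by
      rw [inv_neg]
      exact fun h2 => h (neg_mem_iff.1 h2))
    apply hs
    have h2 : s = t := Units.ext (by rw [e]; linear_combination hxs)
    rw [h2]
    exact ht

/-- an isolated subgroup contains all or only trivial classes of units -/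
theorem res_dich (hNL : S_NLIFT) {p : ℕ} (hp : p.Prime) {F : Type} [Field F]
    (hζ : ∃ ζ : F, IsPrimitiveRoot ζ p) (hε : ∃ ε : F, ε ^ p = -1)
    (hfin : (pwG F p).index ≠ 0) (O : ValuationSubring F) (hO : One (pwG F p) O)
    (hpO : (p : F)⁻¹ ∈ O)
    (hnr : ∀ u : Fˣ, u ∈ O.unitGroup → u ∉ pwG F p →
      (u : Fˣ ⧸ pwG F p) ∈ nonrigidC (pwG F p))
    (H : Subgroup Fˣ) (hTH : pwG F p ≤ H) (hiso : ∀ h ∈ H, h ∉ pwG F p → nmG p h ≤ H) :
    (∀ u : Fˣ, u ∈ O.unitGroup → u ∈ H → u ∈ pwG F p) ∨ O.unitGroup ≤ H := by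
  classical
  by_contra hcon
  push Not at hcon
  obtain ⟨⟨u0, hu0, hu0H, hu0T⟩, hnle⟩ := hcon
  obtain ⟨u1, hu1, hu1H⟩ := SetLike.not_le_iff_exists.1 hnle
  have hneg : (-1 : Fˣ) ∈ pwG F p := by
    obtain ⟨ε, hε⟩ := hε
    have hε0 : ε ≠ 0 := by
      rintro rfl
      rw [zero_pow hp.ne_zero] at hε
      exact one_ne_zero (neg_eq_zero.1 hε.symm)
    exact ⟨Units.mk0 ε hε0, by ext; simp [hε]⟩
  let k := IsLocalRing.ResidueField O
  let r : O.unitGroup →* kˣ := O.unitGroupToResidueFieldUnits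
  have hr : Function.Surjective r := ValuationSubring.surjective_unitGroupToResidueFieldUnits O
  have hker : ∀ u : O.unitGroup, r u = 1 → (u : Fˣ) ∈ pwG F p := fun u hu => ker_mem hO u hu
  have hpw : ∀ u : O.unitGroup, r u ∈ pwG k p ↔ (u : Fˣ) ∈ pwG F p := by
    intro u
    constructor
    · rintro ⟨z, hz⟩
      obtain ⟨y, rfl⟩ := hr z
      have hz' : r (y ^ p) = r u := by rw [map_pow]; exact hz
      have h1 : r (u / y ^ p) = 1 := by rw [map_div, hz', div_self']
      have h2 := hker _ h1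
      have h3 : ((y ^ p : O.unitGroup) : Fˣ) ∈ pwG F p := ⟨(y : Fˣ), by simp⟩
      have h4 := mul_mem h2 h3
      rwa [← Subgroup.coe_mul, div_mul_cancel] at h4
    · rintro ⟨y, hy⟩
      have hy' : y ^ p = (u : Fˣ) := hy
      have hyO : y ∈ O.unitGroup := by
        have h1 : O.valuation (((u : Fˣ) : F)) = 1 := u.2
        rw [← hy', Units.val_pow_eq_pow_val, map_pow] at h1
        exact (pow_eq_one_iff.1 h1).resolve_right hp.ne_zero
      refine ⟨r ⟨y, hyO⟩, ?_⟩
      change (r ⟨y, hyO⟩) ^ p = _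
      rw [← map_pow]
      congr 1
      exact Subtype.ext hy'
  let M : Subgroup kˣ := (H.subgroupOf O.unitGroup).map r
  have hM : ∀ u : O.unitGroup, r u ∈ M ↔ (u : Fˣ) ∈ H := by
    intro u
    constructor
    · rintro ⟨v, hv, e⟩
      have h1 : r (u / v) = 1 := by rw [map_div, e, div_self']
      have h2 := hTH (hker _ h1)
      have h3 : (v : Fˣ) ∈ H := hv
      have h4 := mul_mem h2 h3
      rwa [← Subgroup.coe_mul, div_mul_cancel] at h4
    · exact fun h => ⟨u, h, rfl⟩
  have hpk : (p : k) ≠ 0 := by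
    intro h
    have h1 : (p : O) ∈ IsLocalRing.maximalIdeal O := by
      rw [← IsLocalRing.residue_eq_zero_iff, map_natCast]
      exact h
    have h2 : IsUnit (p : O) := by
      refine IsUnit.of_mul_eq_one ⟨(p : F)⁻¹, hpO⟩ ?_
      apply Subtype.ext
      change ((p : O) : F) * (p : F)⁻¹ = 1
      have hpF : (p : F) ≠ 0 := by
        obtain ⟨ζ, hζ⟩ := hζ
        have : NeZero p := ⟨hp.ne_zero⟩
        exact hζ.neZero'.ne
      have e : ((p : O) : F) = (p : F) := by simp
      rw [e, mul_inv_cancel₀ hpF]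
    exact (IsLocalRing.mem_maximalIdeal _).1 h1 h2
  -- roots of unity in the residue field
  have hζk : ∃ ζ : k, IsPrimitiveRoot ζ p := by
    obtain ⟨ζ, hζ⟩ := hζ
    have hζO : ζ ∈ O := by
      rw [← ValuationSubring.valuation_le_one_iff]
      refine le_of_eq ((pow_eq_one_iff (n := p).1 ?_).resolve_right hp.ne_zero)
      rw [← map_pow, hζ.pow_eq_one, map_one]
    have h1 : (IsLocalRing.residue O ⟨ζ, hζO⟩) ^ p = 1 := by
      rw [← map_pow, ← map_one (IsLocalRing.residue O)]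
      congr 1
      exact Subtype.ext hζ.pow_eq_one
    refine ⟨IsLocalRing.residue O ⟨ζ, hζO⟩, ?_⟩
    rw [IsPrimitiveRoot.iff_orderOf]
    refine orderOf_eq_prime_iff (hp := ⟨hp⟩) |>.2 ⟨h1, fun h2 => hpk ?_⟩
    have h3 : ∑ i ∈ Finset.range p, (⟨ζ, hζO⟩ : O) ^ i = 0 := by
      apply Subtype.ext
      have := hζ.geom_sum_eq_zero hp.one_lt
      push_cast
      exact this
    have h4 := congrArg (IsLocalRing.residue O) h3
    rw [map_sum, map_zero] at h4
    have h5 : ∀ i ∈ Finset.range p, IsLocalRing.residue O ((⟨ζ, hζO⟩ : O) ^ i) = 1 := by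
      intro i _
      rw [map_pow, h2, one_pow]
    rw [Finset.sum_congr rfl h5, Finset.sum_const, Finset.card_range, nsmul_eq_mul, mul_one] at h4
    exact h4
  have hεk : ∃ ε : k, ε ^ p = -1 := by
    obtain ⟨ε, hε⟩ := hε
    have hεO : ε ∈ O := by
      rw [← ValuationSubring.valuation_le_one_iff]
      refine le_of_eq ((pow_eq_one_iff (n := p).1 ?_).resolve_right hp.ne_zero)
      rw [← map_pow, hε, Valuation.map_neg, map_one]
    refine ⟨IsLocalRing.residue O ⟨ε, hεO⟩, ?_⟩
    rw [← map_pow, ← map_one (IsLocalRing.residue O), ← map_neg]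
    congr 1
    exact Subtype.ext hε
  -- finitely many classes
  have hfk : Finite (kˣ ⧸ pwG k p) := by
    have h1 : (pwG k p).comap r = (pwG F p).subgroupOf O.unitGroup := by
      ext u
      rw [Subgroup.mem_comap, Subgroup.mem_subgroupOf]
      exact hpw u
    have h2 : ((pwG F p).subgroupOf O.unitGroup).index ≠ 0 := by
      have : (pwG F p).FiniteIndex := ⟨hfin⟩
      exact Subgroup.FiniteIndex.index_ne_zero
    rw [← h1, Subgroup.index_comap_of_surjective _ hr] at h2
    have : (pwG k p).FiniteIndex := ⟨h2⟩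
    infer_instance
  refine iso_false hp hζk hεk (A := kˣ ⧸ pwG k p) (φ := QuotientGroup.mk' (pwG k p))
    (QuotientGroup.mk'_surjective _) (QuotientGroup.ker_mk' _) ?_ M ?_ ?_ ?_
  · -- all classes are nonrigid
    intro a ha
    rw [nonrigid_eq]
    obtain ⟨z, rfl⟩ := QuotientGroup.mk_surjective a
    obtain ⟨u, rfl⟩ := hr z
    have huT : (u : Fˣ) ∉ pwG F p := by
      intro h
      apply ha
      rw [QuotientGroup.eq_one_iff]
      exact (hpw u).2 h
    obtain ⟨x, s, hxu, hxs, hx, hs, hsx⟩ := hnr u u.2 huT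
    have hxO := nonrig_mem hneg hO hxs hs hsx
    have hsO : s ∈ O.unitGroup := by
      refine nonrig_mem hneg hO (x := s) (s := x) (by rw [add_comm]; exact hxs) hx ?_
      intro h
      apply hsx
      have := inv_mem h
      rwa [inv_div] at this
    refine ⟨r ⟨x, hxO⟩, r ⟨s, hsO⟩, ?_, ?_, ?_, ?_, ?_⟩
    · rw [QuotientGroup.eq, ← map_inv, ← map_mul, hpw]
      rw [QuotientGroup.eq] at hxu
      exact hxu
    · change (IsLocalRing.residue O (O.unitGroupMulEquiv ⟨x, hxO⟩ : O)) +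
        IsLocalRing.residue O (O.unitGroupMulEquiv ⟨s, hsO⟩ : O) = 1
      rw [← map_add, ← map_one (IsLocalRing.residue O)]
      congr 1
      exact Subtype.ext hxs
    · rw [hpw]; exact hx
    · rw [hpw]; exact hs
    · rw [← map_div, hpw]; exact hsx
  · -- `M` is not trivial
    refine lt_of_le_of_ne ?_ ?_
    · rintro _ ⟨z, rfl⟩
      obtain ⟨y, rfl⟩ := hr z
      change (r y) ^ p ∈ M
      rw [← map_pow, hM]
      exact hTH ⟨(y : Fˣ), by simp⟩
    · intro h
      apply hu0T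
      have h1 : r ⟨u0, hu0⟩ ∈ M := (hM _).2 hu0H
      rw [← h, hpw] at h1
      exact h1
  · intro h
    apply hu1H
    have h1 : r ⟨u1, hu1⟩ ∈ M := by rw [h]; trivial
    rw [hM] at h1
    exact h1
  · rintro _ ⟨h, hh, rfl⟩ hhT v hv
    rw [hpw] at hhT
    obtain ⟨w, hw, hw1, hw2⟩ := hNL F p hp O h h.2 v hv
    rw [← hw2]
    refine (hM ⟨w, hw⟩).2 ?_
    exact hiso _ hh hhT hw1

end Pool.Agent.V7H42.KR
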