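import Mathlib
import Pool.Agent.V7H42.KR.Res

set_option autoImplicit false

/-! The classification of the isolated subgroups. -/

namespace Pool.Agent.V7H42.KR

open Pool.Agent.Y920.EP
open Pool.Agent.V7H42.ET (nonrigidC nonrigid_eq)
open Pool.Agent.V7H51.NR (symm_all ram_all nmG_two pwG_le_nmG)

lemma neg_one_pw {p : ℕ} (hp : p.Prime) {F : Type} [Field F] (hε : ∃ ε : F, ε ^ p = -1) :
    (-1 : Fˣ) ∈ pwG F p := by
  obtain ⟨ε, hε⟩ := hε
  have hε0 : ε ≠ 0 := by
    rintro rfl
    rw [zero_pow hp.ne_zero] at hε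
    exact one_ne_zero (neg_eq_zero.1 hε.symm)
  exact ⟨Units.mk0 ε hε0, by ext; simp [hε]⟩

/-- norm groups of classes of units consist of classes of units -/
lemma unit_norm {p : ℕ} (hp : p.Prime) {F : Type} [Field F]
    (hζ : ∃ ζ : F, IsPrimitiveRoot ζ p) (hε : ∃ ε : F, ε ^ p = -1)
    (O : ValuationSubring F) (hPw : Pw p O) {h : Fˣ} (hh : h ∈ O.unitGroup ⊔ pwG F p)
    (hhT : h ∉ pwG F p) : nmG p h ≤ O.unitGroup ⊔ pwG F p := by
  intro c hc
  by_contra hcU
  have hcp : c ∉ pwG F p := fun h => hcU (Subgroup.mem_sup_right h)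
  have hram := ram_all hp hζ hε hPw hcU
  obtain ⟨ζ, hζ'⟩ := hζ
  have h1 : h ∈ nmG p c := symm_all hp hζ' hhT hcp hc
  obtain ⟨z, hz, y, hy, hxy⟩ := Subgroup.mem_sup.1 (hram h1)
  obtain ⟨n, rfl⟩ := Subgroup.mem_zpowers_iff.1 hz
  by_cases hd : (p : ℤ) ∣ n
  · apply hhT
    rw [← hxy]
    refine mul_mem ?_ hy
    obtain ⟨m, rfl⟩ := hd
    refine ⟨c ^ m, ?_⟩
    change (c ^ m) ^ p = _
    rw [← zpow_natCast, ← zpow_mul, mul_comm]
  · apply hcU
    have h4 : c ^ n = h * y⁻¹ := by rw [← hxy, mul_inv_cancel_right]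
    have h5 : c ^ n ∈ O.unitGroup ⊔ pwG F p := by
      rw [h4]
      exact mul_mem hh (inv_mem (Subgroup.mem_sup_right hy))
    refine Pool.Agent.R675.TP.mem_of_pow hp le_sup_right (j := n.natAbs)
      (fun hd' => hd (Int.natCast_dvd.2 hd')) ?_
    rcases Int.natAbs_eq n with e | e
    · rw [e, zpow_natCast] at h5; exact h5
    · rw [e, zpow_neg, zpow_natCast] at h5; exact inv_mem_iff.1 h5

/-- a subgroup is isolated if and only if it contains all or none of the nonrigid classes -/
theorem iso_class (hNL : S_NLIFT) {p : ℕ} (hp : p.Prime) {F : Type} [Field F]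
    (hζ : ∃ ζ : F, IsPrimitiveRoot ζ p) (hε : ∃ ε : F, ε ^ p = -1)
    (hfin : (pwG F p).index ≠ 0) (H : Subgroup Fˣ) (hTH : pwG F p ≤ H) :
    (∀ h ∈ H, h ∉ pwG F p → nmG p h ≤ H) ↔
      (∀ x : Fˣ, (x : Fˣ ⧸ pwG F p) ∈ nonrigidC (pwG F p) → x ∈ H) ∨
      (∀ x : Fˣ, (x : Fˣ ⧸ pwG F p) ∈ nonrigidC (pwG F p) → x ∉ H) := by
  have hneg := neg_one_pw hp hε
  have hpF : (p : F) ≠ 0 := by
    obtain ⟨ζ, hζ⟩ := hζ
    have : NeZero p := ⟨hp.ne_zero⟩
    exact hζ.neZero'.ne
  have hfA : Finite (Fˣ ⧸ pwG F p) := by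
    have : (pwG F p).FiniteIndex := ⟨hfin⟩
    infer_instance
  -- nonrigid classes are not trivial
  have hnT : ∀ x : Fˣ, (x : Fˣ ⧸ pwG F p) ∈ nonrigidC (pwG F p) → x ∉ pwG F p := by
    rintro x ⟨y, s, hy, -, hyT, -, -⟩ hx
    apply hyT
    rw [QuotientGroup.eq] at hy
    have h1 := mul_mem hx (inv_mem hy)
    rwa [mul_inv_rev, inv_inv, mul_inv_cancel_left] at h1
  have heqv : ∀ x u : Fˣ, (u : Fˣ ⧸ pwG F p) = x → (x ∈ H ↔ u ∈ H) := by
    intro x u e
    rw [QuotientGroup.eq] at e
    have h1 := hTH e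
    constructor
    · intro hx
      have h2 := mul_mem hx (inv_mem h1)
      rwa [mul_inv_rev, inv_inv, mul_inv_cancel_left] at h2
    · intro hu
      have h2 := mul_mem hu h1
      rwa [mul_inv_cancel_left] at h2
  by_cases h2 : p ≠ 2 ∨ (nonrigidC (pwG F p)).Nonempty
  · obtain ⟨O, hO, hpO, hU⟩ := Pool.Agent.V7H79.EW.ring_units hp hζ rfl hneg h2
    have hPw : Pw p O := by
      refine ⟨hpO, hpF, fun x hx hx' => ?_⟩
      obtain ⟨t, ⟨y, rfl⟩, e⟩ := hO x hx hx'
      exact ⟨y, by rw [← e]; simp⟩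
    have hmemU : ∀ x : Fˣ, x ∈ O.unitGroup ⊔ pwG F p ↔
        ∃ u ∈ O.unitGroup, ((u : Fˣ) : Fˣ ⧸ pwG F p) = x := by
      intro x
      constructor
      · intro hx
        obtain ⟨u, hu, t, ht, e⟩ := Subgroup.mem_sup.1 hx
        refine ⟨u, hu, ?_⟩
        rw [QuotientGroup.eq, ← e, inv_mul_cancel_left]
        exact ht
      · rintro ⟨u, hu, e⟩
        rw [QuotientGroup.eq] at e
        have h3 := mul_mem (Subgroup.mem_sup_left (T := pwG F p) hu)
          (Subgroup.mem_sup_right (S := O.unitGroup) e)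
        rwa [mul_inv_cancel_left] at h3
    constructor
    · intro hiso
      have hnr : ∀ u : Fˣ, u ∈ O.unitGroup → u ∉ pwG F p →
          (u : Fˣ ⧸ pwG F p) ∈ nonrigidC (pwG F p) := by
        intro u hu huT
        refine ((hU _).1 ⟨u, hu, rfl⟩).resolve_left ?_
        rw [QuotientGroup.eq_one_iff]
        exact huT
      rcases res_dich hNL hp hζ hε hfin O hO hpO hnr H hTH hiso with h3 | h3
      · right
        intro x hx hxH
        obtain ⟨u, hu, e⟩ := (hU x).2 (Or.inr hx)
        have h4 := h3 u hu ((heqv x u e).1 hxH)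
        apply hnT x hx
        rw [QuotientGroup.eq] at e
        have h5 := mul_mem h4 e
        rwa [mul_inv_cancel_left] at h5
      · left
        intro x hx
        obtain ⟨u, hu, e⟩ := (hU x).2 (Or.inr hx)
        exact (heqv x u e).2 (h3 hu)
    · intro hall h hh hhT
      by_cases hhU : h ∈ O.unitGroup ⊔ pwG F p
      · have h3 : (h : Fˣ ⧸ pwG F p) ∈ nonrigidC (pwG F p) := by
          refine ((hU _).1 ((hmemU h).1 hhU)).resolve_left ?_
          rw [QuotientGroup.eq_one_iff]
          exact hhT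
        rcases hall with hall | hall
        · refine (unit_norm hp hζ hε O hPw hhU hhT).trans ?_
          intro x hx
          by_cases hxT : x ∈ pwG F p
          · exact hTH hxT
          · refine hall x (((hU _).1 ((hmemU x).1 hx)).resolve_left ?_)
            rw [QuotientGroup.eq_one_iff]
            exact hxT
        · exact absurd hh (hall h h3)
      · refine (ram_all hp hζ hε hPw hhU).trans (sup_le ?_ hTH)
        rw [Subgroup.zpowers_le]
        exact hh
  · push Not at h2
    obtain ⟨rfl, hempty⟩ := h2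
    constructor
    · intro _
      left
      intro x hx
      rw [hempty] at hx
      exact absurd hx (Set.notMem_empty _)
    · intro _ h hh hhT b hb
      obtain ⟨x, y, e⟩ := nmG_two hb
      obtain ⟨i, hi⟩ := hε
      have hi0 : i ≠ 0 := by
        rintro rfl
        rw [zero_pow two_ne_zero] at hi
        exact one_ne_zero (neg_eq_zero.1 hi.symm)
      have hsq : ∀ z : Fˣ, z ^ 2 ∈ pwG F 2 := fun z => ⟨z, rfl⟩
      by_cases hy : y = 0
      · apply hTH
        have hx : x ≠ 0 := by
          rintro rfl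
          apply b.ne_zero
          rw [e, hy]; ring
        have e2 : b = (Units.mk0 x hx) ^ 2 := by
          apply Units.ext
          rw [e, hy, Units.val_pow_eq_pow_val, Units.val_mk0]; ring
        rw [e2]
        exact hsq _
      by_cases hx : x = 0
      · have e2 : b = h * (Units.mk0 i hi0 * Units.mk0 y hy) ^ 2 := by
          apply Units.ext
          rw [e, hx, Units.val_mul, Units.val_pow_eq_pow_val, Units.val_mul, Units.val_mk0,
            Units.val_mk0, mul_pow, hi]
          ring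
        rw [e2]
        exact mul_mem hh (hTH (hsq _))
      -- `b / x^2 = 1 - h (y/x)^2`
      have hcase : b / (Units.mk0 x hx) ^ 2 ∈ pwG F 2 ∨
          (b / (Units.mk0 x hx) ^ 2) / (h * (Units.mk0 y hy / Units.mk0 x hx) ^ 2) ∈ pwG F 2 := by
        by_contra hc
        push Not at hc
        have h3 : (h : Fˣ ⧸ pwG F 2) ∈ nonrigidC (pwG F 2) := by
          refine ⟨h * (Units.mk0 y hy / Units.mk0 x hx) ^ 2, b / (Units.mk0 x hx) ^ 2, ?_, ?_, ?_,
            hc.1, hc.2⟩
          · rw [eq_comm, QuotientGroup.eq, inv_mul_cancel_left]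
            exact hsq _
          · rw [Units.val_mul, Units.val_pow_eq_pow_val, Units.val_div_eq_div_val,
              Units.val_div_eq_div_val, Units.val_pow_eq_pow_val, Units.val_mk0, Units.val_mk0, e]
            field_simp
            ring
          · intro h4
            apply hhT
            have h5 := mul_mem h4 (inv_mem (hsq (Units.mk0 y hy / Units.mk0 x hx)))
            rwa [mul_inv_cancel_right] at h5
        rw [hempty] at h3
        exact absurd h3 (Set.notMem_empty _)
      rcases hcase with h3 | h3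
      · have h4 := mul_mem (hTH h3) (hTH (hsq (Units.mk0 x hx)))
        rwa [div_mul_cancel] at h4
      · have h4 := mul_mem (mul_mem (hTH h3)
          (mul_mem hh (hTH (hsq (Units.mk0 y hy / Units.mk0 x hx))))) (hTH (hsq (Units.mk0 x hx)))
        rwa [div_mul_cancel, div_mul_cancel] at h4

end Pool.Agent.V7H42.KR
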