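import Mathlib
import Pool.Agent.V7H42.KR.Cls
import Pool.Agent.V7H42.KR.Fin2

set_option autoImplicit false

/-! Isolated subgroups: no finiteness. -/

namespace Pool.Agent.V7H42.KR

open Pool.Agent.Y920.EP
open Pool.Agent.V7H42.EW (mem_ug)
open Pool.Agent.V7H42.ET (nonrigidC nonrigid_eq)
open Pool.Agent.V7H51.NR (symm_all ram_all nmG_two pwG_le_nmG one_add_mem_nmG rel_NnF
  mem_unitGroup_of pow_mem_nmG)
open Pool.Agent.V7H33.KR (ker_mem)

/-- one isolated subgroup, all classes nonrigid: impossible -/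
theorem iso_false2 (hMLE : S_MLE) (hCHP : S_CHP) {p : ℕ} (hp : p.Prime) {F : Type} [Field F]
    (hζ : ∃ ζ : F, IsPrimitiveRoot ζ p) (hε : ∃ ε : F, ε ^ p = -1) {A : Type} [CommGroup A]
    {φ : Fˣ →* A} (hφ : Function.Surjective φ) (hk : φ.ker = pwG F p)
    (hall : ∀ a : A, a ≠ 1 → a ∈ NR φ) (H : Subgroup Fˣ) (hTH : pwG F p < H) (hH : H ≠ ⊤)
    (hiso : ∀ h ∈ H, h ∉ pwG F p → nmG p h ≤ H) : False := by
  have hpF : (p : F) ≠ 0 := by
    obtain ⟨ζ, hζ⟩ := hζ
    have : NeZero p := ⟨hp.ne_zero⟩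
    exact hζ.neZero'.ne
  have hneg : (-1 : Fˣ) ∈ pwG F p := by
    obtain ⟨ε, hε⟩ := hε
    have hε0 : ε ≠ 0 := by
      rintro rfl
      rw [zero_pow hp.ne_zero] at hε
      exact one_ne_zero (neg_eq_zero.1 hε.symm)
    exact ⟨Units.mk0 ε hε0, by ext; simp [hε]⟩
  have hrel := rel_NnF hφ hk hp hζ hε
  have hmap : ∀ x : Fˣ, φ x ∈ H.map φ ↔ x ∈ H := by
    intro x
    constructor
    · rintro ⟨y, hy, e⟩
      have h1 : φ (x / y) = 1 := by rw [map_div, e, div_self']
      rw [← MonoidHom.mem_ker, hk] at h1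
      have h2 := mul_mem (hTH.le h1) hy
      rwa [div_mul_cancel] at h2
    · exact fun h => ⟨x, h, rfl⟩
  have hK : Kr φ (NnF p φ hφ) (H.map φ) := by
    refine ⟨?_, hrel.symm, ?_, ?_⟩
    · rw [← MonoidHom.mem_ker, hk]
      exact hneg
    · intro u v huv
      by_cases hu : φ u = 1
      · rw [NnF, if_pos hu]; trivial
      rw [Pool.Agent.V7H51.NR.mem_NnF hφ hk hp hu]
      exact one_add_mem_nmG hp hε huv
    · intro h hh h1 b hb
      obtain ⟨x, hx, rfl⟩ := hh
      obtain ⟨y, rfl⟩ := hφ b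
      rw [Pool.Agent.V7H51.NR.mem_NnF hφ hk hp h1] at hb
      rw [hmap]
      refine hiso x hx ?_ hb
      rwa [← hk, MonoidHom.mem_ker]
  refine no_kr2 hMLE hCHP hp hpF hφ hk
    (exp_p hφ hk) hK ?_ ?_ hall
  · intro hbot
    obtain ⟨-, x, hx, hxT⟩ := SetLike.lt_iff_le_and_exists.1 hTH
    have h1 : φ x ∈ H.map φ := ⟨x, hx, rfl⟩
    rw [hbot, Subgroup.mem_bot, ← MonoidHom.mem_ker, hk] at h1
    exact hxT h1
  · intro htop
    apply hH
    rw [eq_top_iff]
    intro x _
    rw [← hmap, htop]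
    trivial

/-- one isolated subgroup: a valuation ring -/
theorem iso_ring2 (hMLE : S_MLE) (hCHP : S_CHP) {p : ℕ} (hp : p.Prime) {F : Type} [Field F]
    (hζ : ∃ ζ : F, IsPrimitiveRoot ζ p) (hε : ∃ ε : F, ε ^ p = -1)
    (H : Subgroup Fˣ) (hTH : pwG F p < H) (hH : H ≠ ⊤)
    (hiso : ∀ h ∈ H, h ∉ pwG F p → nmG p h ≤ H) :
    ∃ O : ValuationSubring F, One (pwG F p) O ∧ (p : F)⁻¹ ∈ O ∧ O.unitGroup ⊔ pwG F p ≠ ⊤ := by
  have hpF : (p : F) ≠ 0 := by
    obtain ⟨ζ, hζ⟩ := hζ
    have : NeZero p := ⟨hp.ne_zero⟩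
    exact hζ.neZero'.ne
  have hneg : (-1 : Fˣ) ∈ pwG F p := by
    obtain ⟨ε, hε⟩ := hε
    have hε0 : ε ≠ 0 := by
      rintro rfl
      rw [zero_pow hp.ne_zero] at hε
      exact one_ne_zero (neg_eq_zero.1 hε.symm)
    exact ⟨Units.mk0 ε hε0, by ext; simp [hε]⟩
  have hidx : (pwG F p).index ≠ 2 := by
    intro h2
    obtain ⟨hle, hnle⟩ := SetLike.lt_iff_le_and_exists.1 hTH
    have h3 : (pwG F p).relIndex H * H.index = (pwG F p).index := Subgroup.relIndex_mul_index hle
    have h4 : (pwG F p).relIndex H ≠ 1 := by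
      intro h5
      obtain ⟨x, hx, hxT⟩ := hnle
      exact hxT (Subgroup.relIndex_eq_one.1 h5 hx)
    have h5 : H.index ≠ 1 := fun h6 => hH (Subgroup.index_eq_one.1 h6)
    rw [h2] at h3
    have h6 : (pwG F p).relIndex H ∣ 2 := ⟨_, h3.symm⟩
    rcases (Nat.dvd_prime Nat.prime_two).1 h6 with h7 | h7
    · exact h4 h7
    · rw [h7] at h3
      omega
  by_cases hex : ∃ c : Fˣ ⧸ pwG F p, c ≠ 1 ∧ c ∉ Pool.Agent.V7H42.ET.nonrigidC (pwG F p)
  · exact Pool.Agent.V7H79.EW.ring_one' hp hζ rfl hneg hex hidx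
  push Not at hex
  exfalso
  exact iso_false2 hMLE hCHP hp hζ hε (A := Fˣ ⧸ pwG F p) (φ := QuotientGroup.mk' (pwG F p))
    (QuotientGroup.mk'_surjective _) (QuotientGroup.ker_mk' _) (fun a ha => by
      rw [Pool.Agent.V7H42.ET.nonrigid_eq]
      exact hex a ha) H hTH hH hiso

/-- an isolated subgroup contains all or only trivial classes of units -/
theorem res_dich2 (hMLE : S_MLE) (hCHP : S_CHP) (hNL : S_NLIFT) {p : ℕ} (hp : p.Prime) {F : Type} [Field F]
    (hζ : ∃ ζ : F, IsPrimitiveRoot ζ p) (hε : ∃ ε : F, ε ^ p = -1)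
    (O : ValuationSubring F) (hO : One (pwG F p) O)
    (hpO : (p : F)⁻¹ ∈ O)
    (hnr : ∀ u : Fˣ, u ∈ O.unitGroup → u ∉ pwG F p →
      (u : Fˣ ⧸ pwG F p) ∈ nonrigidC (pwG F p))
    (H : Subgroup Fˣ) (hTH : pwG F p ≤ H) (hiso : ∀ h ∈ H, h ∉ pwG F p → nmG p h ≤ H) :
    (∀ u : Fˣ, u ∈ O.unitGroup → u ∈ H → u ∈ pwG F p) ∨ O.unitGroup ≤ H := by
  classical
  by_contra hcon
  push Not at hcon
  obtain ⟨⟨u0, hu0, hu0H, hu0T⟩, hnle⟩ := hcon
  obtain ⟨u1, hu1, hu1H⟩ := SetLike.not_le_iff_exists.1 hnle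
  have hneg : (-1 : Fˣ) ∈ pwG F p := by
    obtain ⟨ε, hε⟩ := hε
    have hε0 : ε ≠ 0 := by
      rintro rfl
      rw [zero_pow hp.ne_zero] at hε
      exact one_ne_zero (neg_eq_zero.1 hε.symm)
    exact ⟨Units.mk0 ε hε0, by ext; simp [hε]⟩
  let k := IsLocalRing.ResidueField O
  let r : O.unitGroup →* kˣ := O.unitGroupToResidueFieldUnits
  have hr : Function.Surjective r := ValuationSubring.surjective_unitGroupToResidueFieldUnits O
  have hker : ∀ u : O.unitGroup, r u = 1 → (u : Fˣ) ∈ pwG F p := fun u hu => ker_mem hO u hu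
  have hpw : ∀ u : O.unitGroup, r u ∈ pwG k p ↔ (u : Fˣ) ∈ pwG F p := by
    intro u
    constructor
    · rintro ⟨z, hz⟩
      obtain ⟨y, rfl⟩ := hr z
      have hz' : r (y ^ p) = r u := by rw [map_pow]; exact hz
      have h1 : r (u / y ^ p) = 1 := by rw [map_div, hz', div_self']
      have h2 := hker _ h1
      have h3 : ((y ^ p : O.unitGroup) : Fˣ) ∈ pwG F p := ⟨(y : Fˣ), by simp⟩
      have h4 := mul_mem h2 h3
      rwa [← Subgroup.coe_mul, div_mul_cancel] at h4
    · rintro ⟨y, hy⟩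
      have hy' : y ^ p = (u : Fˣ) := hy
      have hyO : y ∈ O.unitGroup := by
        have h1 : O.valuation (((u : Fˣ) : F)) = 1 := u.2
        rw [← hy', Units.val_pow_eq_pow_val, map_pow] at h1
        exact (pow_eq_one_iff.1 h1).resolve_right hp.ne_zero
      refine ⟨r ⟨y, hyO⟩, ?_⟩
      change (r ⟨y, hyO⟩) ^ p = _
      rw [← map_pow]
      congr 1
      exact Subtype.ext hy'
  let M : Subgroup kˣ := (H.subgroupOf O.unitGroup).map r
  have hM : ∀ u : O.unitGroup, r u ∈ M ↔ (u : Fˣ) ∈ H := by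
    intro u
    constructor
    · rintro ⟨v, hv, e⟩
      have h1 : r (u / v) = 1 := by rw [map_div, e, div_self']
      have h2 := hTH (hker _ h1)
      have h3 : (v : Fˣ) ∈ H := hv
      have h4 := mul_mem h2 h3
      rwa [← Subgroup.coe_mul, div_mul_cancel] at h4
    · exact fun h => ⟨u, h, rfl⟩
  have hpk : (p : k) ≠ 0 := by
    intro h
    have h1 : (p : O) ∈ IsLocalRing.maximalIdeal O := by
      rw [← IsLocalRing.residue_eq_zero_iff, map_natCast]
      exact h
    have h2 : IsUnit (p : O) := by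
      refine IsUnit.of_mul_eq_one ⟨(p : F)⁻¹, hpO⟩ ?_
      apply Subtype.ext
      change ((p : O) : F) * (p : F)⁻¹ = 1
      have hpF : (p : F) ≠ 0 := by
        obtain ⟨ζ, hζ⟩ := hζ
        have : NeZero p := ⟨hp.ne_zero⟩
        exact hζ.neZero'.ne
      have e : ((p : O) : F) = (p : F) := by simp
      rw [e, mul_inv_cancel₀ hpF]
    exact (IsLocalRing.mem_maximalIdeal _).1 h1 h2
  -- roots of unity in the residue field
  have hζk : ∃ ζ : k, IsPrimitiveRoot ζ p := by
    obtain ⟨ζ, hζ⟩ := hζ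
    have hζO : ζ ∈ O := by
      rw [← ValuationSubring.valuation_le_one_iff]
      refine le_of_eq ((pow_eq_one_iff (n := p).1 ?_).resolve_right hp.ne_zero)
      rw [← map_pow, hζ.pow_eq_one, map_one]
    have h1 : (IsLocalRing.residue O ⟨ζ, hζO⟩) ^ p = 1 := by
      rw [← map_pow, ← map_one (IsLocalRing.residue O)]
      congr 1
      exact Subtype.ext hζ.pow_eq_one
    refine ⟨IsLocalRing.residue O ⟨ζ, hζO⟩, ?_⟩
    rw [IsPrimitiveRoot.iff_orderOf]
    refine orderOf_eq_prime_iff (hp := ⟨hp⟩) |>.2 ⟨h1, fun h2 => hpk ?_⟩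
    have h3 : ∑ i ∈ Finset.range p, (⟨ζ, hζO⟩ : O) ^ i = 0 := by
      apply Subtype.ext
      have := hζ.geom_sum_eq_zero hp.one_lt
      push_cast
      exact this
    have h4 := congrArg (IsLocalRing.residue O) h3
    rw [map_sum, map_zero] at h4
    have h5 : ∀ i ∈ Finset.range p, IsLocalRing.residue O ((⟨ζ, hζO⟩ : O) ^ i) = 1 := by
      intro i _
      rw [map_pow, h2, one_pow]
    rw [Finset.sum_congr rfl h5, Finset.sum_const, Finset.card_range, nsmul_eq_mul, mul_one] at h4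
    exact h4
  have hεk : ∃ ε : k, ε ^ p = -1 := by
    obtain ⟨ε, hε⟩ := hε
    have hεO : ε ∈ O := by
      rw [← ValuationSubring.valuation_le_one_iff]
      refine le_of_eq ((pow_eq_one_iff (n := p).1 ?_).resolve_right hp.ne_zero)
      rw [← map_pow, hε, Valuation.map_neg, map_one]
    refine ⟨IsLocalRing.residue O ⟨ε, hεO⟩, ?_⟩
    rw [← map_pow, ← map_one (IsLocalRing.residue O), ← map_neg]
    congr 1
    exact Subtype.ext hε
  refine iso_false2 hMLE hCHP hp hζk hεk (A := kˣ ⧸ pwG k p) (φ := QuotientGroup.mk' (pwG k p))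
    (QuotientGroup.mk'_surjective _) (QuotientGroup.ker_mk' _) ?_ M ?_ ?_ ?_
  · -- all classes are nonrigid
    intro a ha
    rw [nonrigid_eq]
    obtain ⟨z, rfl⟩ := QuotientGroup.mk_surjective a
    obtain ⟨u, rfl⟩ := hr z
    have huT : (u : Fˣ) ∉ pwG F p := by
      intro h
      apply ha
      rw [QuotientGroup.eq_one_iff]
      exact (hpw u).2 h
    obtain ⟨x, s, hxu, hxs, hx, hs, hsx⟩ := hnr u u.2 huT
    have hxO := nonrig_mem hneg hO hxs hs hsx
    have hsO : s ∈ O.unitGroup := by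
      refine nonrig_mem hneg hO (x := s) (s := x) (by rw [add_comm]; exact hxs) hx ?_
      intro h
      apply hsx
      have := inv_mem h
      rwa [inv_div] at this
    refine ⟨r ⟨x, hxO⟩, r ⟨s, hsO⟩, ?_, ?_, ?_, ?_, ?_⟩
    · rw [QuotientGroup.eq, ← map_inv, ← map_mul, hpw]
      rw [QuotientGroup.eq] at hxu
      exact hxu
    · change (IsLocalRing.residue O (O.unitGroupMulEquiv ⟨x, hxO⟩ : O)) +
        IsLocalRing.residue O (O.unitGroupMulEquiv ⟨s, hsO⟩ : O) = 1
      rw [← map_add, ← map_one (IsLocalRing.residue O)]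
      congr 1
      exact Subtype.ext hxs
    · rw [hpw]; exact hx
    · rw [hpw]; exact hs
    · rw [← map_div, hpw]; exact hsx
  · -- `M` is not trivial
    refine lt_of_le_of_ne ?_ ?_
    · rintro _ ⟨z, rfl⟩
      obtain ⟨y, rfl⟩ := hr z
      change (r y) ^ p ∈ M
      rw [← map_pow, hM]
      exact hTH ⟨(y : Fˣ), by simp⟩
    · intro h
      apply hu0T
      have h1 : r ⟨u0, hu0⟩ ∈ M := (hM _).2 hu0H
      rw [← h, hpw] at h1
      exact h1
  · intro h
    apply hu1H
    have h1 : r ⟨u1, hu1⟩ ∈ M := by rw [h]; trivial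
    rw [hM] at h1
    exact h1
  · rintro _ ⟨h, hh, rfl⟩ hhT v hv
    rw [hpw] at hhT
    obtain ⟨w, hw, hw1, hw2⟩ := hNL F p hp O h h.2 v hv
    rw [← hw2]
    refine (hM ⟨w, hw⟩).2 ?_
    exact hiso _ hh hhT hw1

/-- a subgroup is isolated if and only if it contains all or none of the nonrigid classes -/
theorem iso_class2 (hMLE : S_MLE) (hCHP : S_CHP) (hNL : S_NLIFT) {p : ℕ} (hp : p.Prime) {F : Type} [Field F]
    (hζ : ∃ ζ : F, IsPrimitiveRoot ζ p) (hε : ∃ ε : F, ε ^ p = -1)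
    (H : Subgroup Fˣ) (hTH : pwG F p ≤ H) :
    (∀ h ∈ H, h ∉ pwG F p → nmG p h ≤ H) ↔
      (∀ x : Fˣ, (x : Fˣ ⧸ pwG F p) ∈ nonrigidC (pwG F p) → x ∈ H) ∨
      (∀ x : Fˣ, (x : Fˣ ⧸ pwG F p) ∈ nonrigidC (pwG F p) → x ∉ H) := by
  have hneg := neg_one_pw hp hε
  have hpF : (p : F) ≠ 0 := by
    obtain ⟨ζ, hζ⟩ := hζ
    have : NeZero p := ⟨hp.ne_zero⟩
    exact hζ.neZero'.ne
  -- nonrigid classes are not trivial
  have hnT : ∀ x : Fˣ, (x : Fˣ ⧸ pwG F p) ∈ nonrigidC (pwG F p) → x ∉ pwG F p := by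
    rintro x ⟨y, s, hy, -, hyT, -, -⟩ hx
    apply hyT
    rw [QuotientGroup.eq] at hy
    have h1 := mul_mem hx (inv_mem hy)
    rwa [mul_inv_rev, inv_inv, mul_inv_cancel_left] at h1
  have heqv : ∀ x u : Fˣ, (u : Fˣ ⧸ pwG F p) = x → (x ∈ H ↔ u ∈ H) := by
    intro x u e
    rw [QuotientGroup.eq] at e
    have h1 := hTH e
    constructor
    · intro hx
      have h2 := mul_mem hx (inv_mem h1)
      rwa [mul_inv_rev, inv_inv, mul_inv_cancel_left] at h2
    · intro hu
      have h2 := mul_mem hu h1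
      rwa [mul_inv_cancel_left] at h2
  by_cases h2 : p ≠ 2 ∨ (nonrigidC (pwG F p)).Nonempty
  · obtain ⟨O, hO, hpO, hU⟩ := Pool.Agent.V7H79.EW.ring_units hp hζ rfl hneg h2
    have hPw : Pw p O := by
      refine ⟨hpO, hpF, fun x hx hx' => ?_⟩
      obtain ⟨t, ⟨y, rfl⟩, e⟩ := hO x hx hx'
      exact ⟨y, by rw [← e]; simp⟩
    have hmemU : ∀ x : Fˣ, x ∈ O.unitGroup ⊔ pwG F p ↔
        ∃ u ∈ O.unitGroup, ((u : Fˣ) : Fˣ ⧸ pwG F p) = x := by
      intro x
      constructor
      · intro hx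
        obtain ⟨u, hu, t, ht, e⟩ := Subgroup.mem_sup.1 hx
        refine ⟨u, hu, ?_⟩
        rw [QuotientGroup.eq, ← e, inv_mul_cancel_left]
        exact ht
      · rintro ⟨u, hu, e⟩
        rw [QuotientGroup.eq] at e
        have h3 := mul_mem (Subgroup.mem_sup_left (T := pwG F p) hu)
          (Subgroup.mem_sup_right (S := O.unitGroup) e)
        rwa [mul_inv_cancel_left] at h3
    constructor
    · intro hiso
      have hnr : ∀ u : Fˣ, u ∈ O.unitGroup → u ∉ pwG F p →
          (u : Fˣ ⧸ pwG F p) ∈ nonrigidC (pwG F p) := by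
        intro u hu huT
        refine ((hU _).1 ⟨u, hu, rfl⟩).resolve_left ?_
        rw [QuotientGroup.eq_one_iff]
        exact huT
      rcases res_dich2 hMLE hCHP hNL hp hζ hε O hO hpO hnr H hTH hiso with h3 | h3
      · right
        intro x hx hxH
        obtain ⟨u, hu, e⟩ := (hU x).2 (Or.inr hx)
        have h4 := h3 u hu ((heqv x u e).1 hxH)
        apply hnT x hx
        rw [QuotientGroup.eq] at e
        have h5 := mul_mem h4 e
        rwa [mul_inv_cancel_left] at h5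
      · left
        intro x hx
        obtain ⟨u, hu, e⟩ := (hU x).2 (Or.inr hx)
        exact (heqv x u e).2 (h3 hu)
    · intro hall h hh hhT
      by_cases hhU : h ∈ O.unitGroup ⊔ pwG F p
      · have h3 : (h : Fˣ ⧸ pwG F p) ∈ nonrigidC (pwG F p) := by
          refine ((hU _).1 ((hmemU h).1 hhU)).resolve_left ?_
          rw [QuotientGroup.eq_one_iff]
          exact hhT
        rcases hall with hall | hall
        · refine (unit_norm hp hζ hε O hPw hhU hhT).trans ?_
          intro x hx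
          by_cases hxT : x ∈ pwG F p
          · exact hTH hxT
          · refine hall x (((hU _).1 ((hmemU x).1 hx)).resolve_left ?_)
            rw [QuotientGroup.eq_one_iff]
            exact hxT
        · exact absurd hh (hall h h3)
      · refine (ram_all hp hζ hε hPw hhU).trans (sup_le ?_ hTH)
        rw [Subgroup.zpowers_le]
        exact hh
  · push Not at h2
    obtain ⟨rfl, hempty⟩ := h2
    constructor
    · intro _
      left
      intro x hx
      rw [hempty] at hx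
      exact absurd hx (Set.notMem_empty _)
    · intro _ h hh hhT b hb
      obtain ⟨x, y, e⟩ := nmG_two hb
      obtain ⟨i, hi⟩ := hε
      have hi0 : i ≠ 0 := by
        rintro rfl
        rw [zero_pow two_ne_zero] at hi
        exact one_ne_zero (neg_eq_zero.1 hi.symm)
      have hsq : ∀ z : Fˣ, z ^ 2 ∈ pwG F 2 := fun z => ⟨z, rfl⟩
      by_cases hy : y = 0
      · apply hTH
        have hx : x ≠ 0 := by
          rintro rfl
          apply b.ne_zero
          rw [e, hy]; ring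
        have e2 : b = (Units.mk0 x hx) ^ 2 := by
          apply Units.ext
          rw [e, hy, Units.val_pow_eq_pow_val, Units.val_mk0]; ring
        rw [e2]
        exact hsq _
      by_cases hx : x = 0
      · have e2 : b = h * (Units.mk0 i hi0 * Units.mk0 y hy) ^ 2 := by
          apply Units.ext
          rw [e, hx, Units.val_mul, Units.val_pow_eq_pow_val, Units.val_mul, Units.val_mk0,
            Units.val_mk0, mul_pow, hi]
          ring
        rw [e2]
        exact mul_mem hh (hTH (hsq _))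
      -- `b / x^2 = 1 - h (y/x)^2`
      have hcase : b / (Units.mk0 x hx) ^ 2 ∈ pwG F 2 ∨
          (b / (Units.mk0 x hx) ^ 2) / (h * (Units.mk0 y hy / Units.mk0 x hx) ^ 2) ∈ pwG F 2 := by
        by_contra hc
        push Not at hc
        have h3 : (h : Fˣ ⧸ pwG F 2) ∈ nonrigidC (pwG F 2) := by
          refine ⟨h * (Units.mk0 y hy / Units.mk0 x hx) ^ 2, b / (Units.mk0 x hx) ^ 2, ?_, ?_, ?_,
            hc.1, hc.2⟩
          · rw [eq_comm, QuotientGroup.eq, inv_mul_cancel_left]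
            exact hsq _
          · rw [Units.val_mul, Units.val_pow_eq_pow_val, Units.val_div_eq_div_val,
              Units.val_div_eq_div_val, Units.val_pow_eq_pow_val, Units.val_mk0, Units.val_mk0, e]
            field_simp
            ring
          · intro h4
            apply hhT
            have h5 := mul_mem h4 (inv_mem (hsq (Units.mk0 y hy / Units.mk0 x hx)))
            rwa [mul_inv_cancel_right] at h5
        rw [hempty] at h3
        exact absurd h3 (Set.notMem_empty _)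
      rcases hcase with h3 | h3
      · have h4 := mul_mem (hTH h3) (hTH (hsq (Units.mk0 x hx)))
        rwa [div_mul_cancel] at h4
      · have h4 := mul_mem (mul_mem (hTH h3)
          (mul_mem hh (hTH (hsq (Units.mk0 y hy / Units.mk0 x hx))))) (hTH (hsq (Units.mk0 x hx)))
        rwa [div_mul_cancel, div_mul_cancel] at h4

end Pool.Agent.V7H42.KR
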